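import Mathlib

/-!
# Quartic forms and their polar biquadratic forms
-/

namespace Pool.Agent.NH87.SN

/-- A signed quartic monomial `± zᵢ zⱼ zₖ zₗ`. -/
abbrev Quart : Type := Bool × ℕ × ℕ × ℕ × ℕ

/-- The sign of a Boolean. -/
def sg (b : Bool) : ℝ := if b then 1 else -1

/-- The value of a signed quartic monomial. -/
def qval (z : ℕ → ℝ) (t : Quart) : ℝ :=
  sg t.1 * (z t.2.1 * z t.2.2.1 * z t.2.2.2.1 * z t.2.2.2.2)

/-- The value of a quartic form, given as a list of signed monomials. -/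
def fval (P : List Quart) (z : ℕ → ℝ) : ℝ := (P.map (qval z)).sum

/-- Six times the polar form of a monomial at `(x, x, y, y)`. -/
def gt (x y : ℕ → ℝ) (t : Quart) : ℝ :=
  sg t.1 * (x t.2.1 * x t.2.2.1 * y t.2.2.2.1 * y t.2.2.2.2 +
    x t.2.1 * x t.2.2.2.1 * y t.2.2.1 * y t.2.2.2.2 +
    x t.2.1 * x t.2.2.2.2 * y t.2.2.1 * y t.2.2.2.1 +
    x t.2.2.1 * x t.2.2.2.1 * y t.2.1 * y t.2.2.2.2 +
    x t.2.2.1 * x t.2.2.2.2 * y t.2.1 * y t.2.2.2.1 +
    x t.2.2.2.1 * x t.2.2.2.2 * y t.2.1 * y t.2.2.1)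

/-- Six times the polar form of a quartic form at `(x, x, y, y)`. -/
def gval (P : List Quart) (x y : ℕ → ℝ) : ℝ := (P.map (gt x y)).sum

/-- Square norm of the first `N` coordinates. -/
def nsq (N : ℕ) (z : ℕ → ℝ) : ℝ := ∑ i ∈ Finset.range N, z i ^ 2

/-- Inner product of the first `N` coordinates. -/
def dot (N : ℕ) (x y : ℕ → ℝ) : ℝ := ∑ i ∈ Finset.range N, x i * y i

/-- All indices are less than `N`. -/
def Ind (N : ℕ) (t : Quart) : Prop :=
  t.2.1 < N ∧ t.2.2.1 < N ∧ t.2.2.2.1 < N ∧ t.2.2.2.2 < N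

theorem nsq_nonneg (N : ℕ) (z : ℕ → ℝ) : 0 ≤ nsq N z :=
  Finset.sum_nonneg fun _ _ => sq_nonneg _

theorem sq_le_nsq {N i : ℕ} (z : ℕ → ℝ) (hi : i < N) : z i ^ 2 ≤ nsq N z :=
  Finset.single_le_sum (f := fun i => z i ^ 2) (fun _ _ => sq_nonneg _) (Finset.mem_range.2 hi)

theorem zero_of_nsq {N i : ℕ} {z : ℕ → ℝ} (h : nsq N z = 0) (hi : i < N) : z i = 0 := by
  have := sq_le_nsq z hi
  rw [h] at this
  exact pow_eq_zero_iff (two_ne_zero) |>.1 (le_antisymm this (sq_nonneg _))

theorem abs_qval_le {N : ℕ} {t : Quart} (ht : Ind N t) (z : ℕ → ℝ) :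
    |qval z t| ≤ nsq N z ^ 2 := by
  obtain ⟨h1, h2, h3, h4⟩ := ht
  have e1 := sq_le_nsq z h1
  have e2 := sq_le_nsq z h2
  have e3 := sq_le_nsq z h3
  have e4 := sq_le_nsq z h4
  have hs : |sg t.1| = 1 := by unfold sg; split_ifs <;> simp
  have a1 : |z t.2.1 * z t.2.2.1| ≤ nsq N z := by
    rw [abs_mul]
    nlinarith [sq_abs (z t.2.1), sq_abs (z t.2.2.1), sq_nonneg (|z t.2.1| - |z t.2.2.1|)]
  have a2 : |z t.2.2.2.1 * z t.2.2.2.2| ≤ nsq N z := by
    rw [abs_mul]
    nlinarith [sq_abs (z t.2.2.2.1), sq_abs (z t.2.2.2.2),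
      sq_nonneg (|z t.2.2.2.1| - |z t.2.2.2.2|)]
  have e : qval z t = sg t.1 * ((z t.2.1 * z t.2.2.1) * (z t.2.2.2.1 * z t.2.2.2.2)) := by
    unfold qval; ring
  rw [e, abs_mul, hs, one_mul, abs_mul, sq]
  exact mul_le_mul a1 a2 (abs_nonneg _) (nsq_nonneg _ _)

theorem fval_le {N : ℕ} {P : List Quart} (hP : ∀ t ∈ P, Ind N t) (z : ℕ → ℝ) :
    fval P z ≤ P.length * nsq N z ^ 2 := by
  unfold fval
  induction P with
  | nil => simp
  | cons t P ih =>
    have h1 := (le_abs_self _).trans (abs_qval_le (hP t (List.mem_cons_self)) z)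
    have h2 := ih fun s hs => hP s (List.mem_cons_of_mem _ hs)
    simp only [List.map_cons, List.sum_cons, List.length_cons, Nat.cast_add, Nat.cast_one]
    linarith

theorem polar_add (P : List Quart) (u v : ℕ → ℝ) :
    fval P (fun i => u i + v i) + fval P (fun i => u i - v i) =
      2 * fval P u + 2 * fval P v + 2 * gval P u v := by
  unfold fval gval
  induction P with
  | nil => simp
  | cons t P ih =>
    simp only [List.map_cons, List.sum_cons]
    have : qval (fun i => u i + v i) t + qval (fun i => u i - v i) t =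
      2 * qval u t + 2 * qval v t + 2 * gt u v t := by
      unfold qval gt
      ring
    linarith

theorem polar_half (P : List Quart) (x y : ℕ → ℝ) :
    16 * gval P x y = 6 * fval P (fun i => x i + y i) + 6 * fval P (fun i => x i - y i) -
      2 * gval P (fun i => x i + y i) (fun i => x i - y i) := by
  unfold fval gval
  induction P with
  | nil => simp
  | cons t P ih =>
    simp only [List.map_cons, List.sum_cons]
    have : 16 * gt x y t = 6 * qval (fun i => x i + y i) t + 6 * qval (fun i => x i - y i) t -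
      2 * gt (fun i => x i + y i) (fun i => x i - y i) t := by
      unfold qval gt
      ring
    linarith

theorem gval_diag (P : List Quart) (z : ℕ → ℝ) : gval P z z = 6 * fval P z := by
  unfold fval gval
  induction P with
  | nil => simp
  | cons t P ih =>
    simp only [List.map_cons, List.sum_cons]
    have : gt z z t = 6 * qval z t := by
      unfold qval gt
      ring
    linarith

theorem gval_smul (P : List Quart) (a b : ℝ) (x y : ℕ → ℝ) :
    gval P (fun i => a * x i) (fun i => b * y i) = a ^ 2 * b ^ 2 * gval P x y := by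
  unfold gval
  induction P with
  | nil => simp
  | cons t P ih =>
    simp only [List.map_cons, List.sum_cons]
    have : gt (fun i => a * x i) (fun i => b * y i) t = a ^ 2 * b ^ 2 * gt x y t := by
      unfold gt
      ring
    rw [ih, this]
    ring

theorem fval_smul (P : List Quart) (a : ℝ) (x : ℕ → ℝ) :
    fval P (fun i => a * x i) = a ^ 4 * fval P x := by
  unfold fval
  induction P with
  | nil => simp
  | cons t P ih =>
    simp only [List.map_cons, List.sum_cons]
    have : qval (fun i => a * x i) t = a ^ 4 * qval x t := by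
      unfold qval
      ring
    rw [ih, this]
    ring

theorem gval_zero_left {N : ℕ} {P : List Quart} (hP : ∀ t ∈ P, Ind N t) {x : ℕ → ℝ}
    (hx : nsq N x = 0) (y : ℕ → ℝ) : gval P x y = 0 := by
  unfold gval
  apply List.sum_eq_zero
  intro r hr
  rw [List.mem_map] at hr
  obtain ⟨t, ht, rfl⟩ := hr
  obtain ⟨h1, h2, h3, h4⟩ := hP t ht
  unfold gt
  rw [zero_of_nsq hx h1, zero_of_nsq hx h2, zero_of_nsq hx h3, zero_of_nsq hx h4]
  ring

theorem gval_zero_right {N : ℕ} {P : List Quart} (hP : ∀ t ∈ P, Ind N t) (x : ℕ → ℝ) {y : ℕ → ℝ}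
    (hy : nsq N y = 0) : gval P x y = 0 := by
  unfold gval
  apply List.sum_eq_zero
  intro r hr
  rw [List.mem_map] at hr
  obtain ⟨t, ht, rfl⟩ := hr
  obtain ⟨h1, h2, h3, h4⟩ := hP t ht
  unfold gt
  rw [zero_of_nsq hy h1, zero_of_nsq hy h2, zero_of_nsq hy h3, zero_of_nsq hy h4]
  ring

theorem nsq_add (N : ℕ) (x y : ℕ → ℝ) :
    nsq N (fun i => x i + y i) = nsq N x + nsq N y + 2 * dot N x y := by
  unfold nsq dot
  rw [Finset.mul_sum, ← Finset.sum_add_distrib, ← Finset.sum_add_distrib]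
  exact Finset.sum_congr rfl fun i _ => by ring

theorem nsq_sub (N : ℕ) (x y : ℕ → ℝ) :
    nsq N (fun i => x i - y i) = nsq N x + nsq N y - 2 * dot N x y := by
  unfold nsq dot
  rw [Finset.mul_sum, ← Finset.sum_add_distrib, ← Finset.sum_sub_distrib]
  exact Finset.sum_congr rfl fun i _ => by ring

theorem dot_add_sub (N : ℕ) (x y : ℕ → ℝ) :
    dot N (fun i => x i + y i) (fun i => x i - y i) = nsq N x - nsq N y := by
  unfold nsq dot
  rw [← Finset.sum_sub_distrib]
  exact Finset.sum_congr rfl fun i _ => by ring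

theorem nsq_smul (N : ℕ) (a : ℝ) (x : ℕ → ℝ) : nsq N (fun i => a * x i) = a ^ 2 * nsq N x := by
  unfold nsq
  rw [Finset.mul_sum]
  exact Finset.sum_congr rfl fun i _ => by ring

theorem dot_smul (N : ℕ) (a b : ℝ) (x y : ℕ → ℝ) :
    dot N (fun i => a * x i) (fun i => b * y i) = a * b * dot N x y := by
  unfold dot
  rw [Finset.mul_sum]
  exact Finset.sum_congr rfl fun i _ => by ring

theorem dot_sq_le (N : ℕ) (x y : ℕ → ℝ) : dot N x y ^ 2 ≤ nsq N x * nsq N y := by
  unfold dot nsq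
  exact Finset.sum_mul_sq_le_sq_mul_sq _ _ _

/-- Upper bound of the polar form at orthogonal vectors. -/
theorem gval_le_of_orth {N : ℕ} {P : List Quart} (hP : ∀ t ∈ P, Ind N t)
    (h0 : ∀ z, 0 ≤ fval P z) (u v : ℕ → ℝ) (huv : dot N u v = 0) :
    gval P u v ≤ 4 * P.length * (nsq N u * nsq N v) := by
  rcases eq_or_ne (nsq N u) 0 with hu | hu
  · rw [gval_zero_left hP hu, hu]; simp
  rcases eq_or_ne (nsq N v) 0 with hv | hv
  · rw [gval_zero_right hP _ hv, hv]; simp
  have hu0 : 0 < nsq N u := lt_of_le_of_ne (nsq_nonneg _ _) hu.symm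
  have hv0 : 0 < nsq N v := lt_of_le_of_ne (nsq_nonneg _ _) hv.symm
  set a := √(nsq N u) with ha
  set b := √(nsq N v) with hb
  have ha2 : a ^ 2 = nsq N u := Real.sq_sqrt hu0.le
  have hb2 : b ^ 2 = nsq N v := Real.sq_sqrt hv0.le
  have h1 := polar_add P (fun i => b * u i) (fun i => a * v i)
  rw [gval_smul] at h1
  have h2 := fval_le hP (fun i => b * u i + a * v i)
  have h3 := fval_le hP (fun i => b * u i - a * v i)
  rw [nsq_add, nsq_smul, nsq_smul, dot_smul, huv] at h2
  rw [nsq_sub, nsq_smul, nsq_smul, dot_smul, huv] at h3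
  have h4 := h0 (fun i => b * u i)
  have h5 := h0 (fun i => a * v i)
  rw [ha2, hb2] at h1 h2 h3
  have h6 : 2 * (nsq N u * nsq N v) * gval P u v ≤
      2 * (nsq N u * nsq N v) * (4 * P.length * (nsq N u * nsq N v)) := by
    nlinarith
  exact le_of_mul_le_mul_left h6 (by positivity)

theorem gval_ge_of_eq {N : ℕ} {P : List Quart} (hP : ∀ t ∈ P, Ind N t)
    (h0 : ∀ z, 0 ≤ fval P z) (x y : ℕ → ℝ) (hxy : nsq N x = nsq N y) :
    0 ≤ 2 * gval P x y + 4 * P.length * (nsq N x * nsq N y - dot N x y ^ 2) := by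
  have h1 := polar_half P x y
  have h2 := gval_le_of_orth hP h0 (fun i => x i + y i) (fun i => x i - y i)
    (by rw [dot_add_sub, hxy, sub_self])
  rw [nsq_add, nsq_sub, ← hxy] at h2
  rw [← hxy]
  have h3 := h0 (fun i => x i + y i)
  have h4 := h0 (fun i => x i - y i)
  nlinarith

/-- If the quartic form is nonnegative, so is the biquadratic form. -/
theorem gval_ge {N : ℕ} {P : List Quart} (hP : ∀ t ∈ P, Ind N t)
    (h0 : ∀ z, 0 ≤ fval P z) (x y : ℕ → ℝ) :
    0 ≤ 2 * gval P x y + 4 * P.length * (nsq N x * nsq N y - dot N x y ^ 2) := by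
  have hcs := dot_sq_le N x y
  have hn : (0 : ℝ) ≤ P.length := Nat.cast_nonneg _
  rcases eq_or_ne (nsq N x) 0 with hu | hu
  · rw [gval_zero_left hP hu]
    nlinarith
  rcases eq_or_ne (nsq N y) 0 with hv | hv
  · rw [gval_zero_right hP _ hv]
    nlinarith
  have hu0 : 0 < nsq N x := lt_of_le_of_ne (nsq_nonneg _ _) hu.symm
  have hv0 : 0 < nsq N y := lt_of_le_of_ne (nsq_nonneg _ _) hv.symm
  set a := √(nsq N x) with ha
  set b := √(nsq N y) with hb
  have ha2 : a ^ 2 = nsq N x := Real.sq_sqrt hu0.le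
  have hb2 : b ^ 2 = nsq N y := Real.sq_sqrt hv0.le
  have h1 := gval_ge_of_eq hP h0 (fun i => b * x i) (fun i => a * y i)
    (by rw [nsq_smul, nsq_smul, ha2, hb2, mul_comm])
  rw [gval_smul, nsq_smul, nsq_smul, dot_smul, ha2, hb2] at h1
  have h2 : (b * a * dot N x y) ^ 2 = nsq N y * nsq N x * dot N x y ^ 2 := by
    rw [mul_pow, mul_pow, ha2, hb2]
  rw [h2] at h1
  have h3 : 0 ≤ (nsq N x * nsq N y) *
      (2 * gval P x y + 4 * P.length * (nsq N x * nsq N y - dot N x y ^ 2)) := by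
    nlinarith
  exact nonneg_of_mul_nonneg_right h3 (by positivity)

/-- **The key equivalence.** -/
theorem key {N : ℕ} {P : List Quart} (hP : ∀ t ∈ P, Ind N t) :
    (∀ z, 0 ≤ fval P z) ↔ ∀ x y : ℕ → ℝ, 0 ≤ 2 * gval P x y +
      (2 * P.length : ℝ) ^ 2 * (nsq N x * nsq N y - dot N x y ^ 2) := by
  constructor
  · intro h x y
    have h1 := gval_ge hP h x y
    have hcs := dot_sq_le N x y
    have h2 : (4 * P.length : ℝ) ≤ (2 * P.length) ^ 2 := by
      have h3 : P.length ≤ P.length * P.length := by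
        rcases Nat.eq_zero_or_pos P.length with h | h
        · rw [h]
        · exact Nat.le_mul_of_pos_left _ h
      have h4 : (P.length : ℝ) ≤ P.length * P.length := by exact_mod_cast h3
      nlinarith
    nlinarith
  · intro h z
    have h1 := h z z
    have h2 : dot N z z = nsq N z := by
      unfold dot nsq
      exact Finset.sum_congr rfl fun i _ => by ring
    rw [gval_diag, h2] at h1
    nlinarith

end Pool.Agent.NH87.SN
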