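import Pool.Agent.NH87.SN.PolyT
import Pool.Agent.ER.Build
import Pool.Agent.ER.Rat
import Pool.Agent.ER.Dec

/-!
# Membership, and the classes `∃ℝ` and `∀ℝ`
-/

namespace Pool.Agent.NPC.NH87SN

open Pool.Agent.NPC Pool.Agent.NPC.ER Pool.Agent.NH87.SN Pool.Agent.NPC.H670R2

/-- The class `∀ℝ`: the complements of the languages in `∃ℝ`. -/
def InFR (L : Set (List Bool)) : Prop := InER Lᶜ

/-- `∀ℝ`-hardness under polynomial-time many-one reductions. -/
def FRHard (L : Set (List Bool)) : Prop := ∀ L', InFR L' → Reduces L' L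

/-- `∀ℝ`-completeness under polynomial-time many-one reductions. -/
def FRComplete (L : Set (List Bool)) : Prop := InFR L ∧ FRHard L

/-- An instance is a list of lists of lists of rational numbers (the entries `t_{ijk}`) and a
rational number `σ`. -/
abbrev Inst : Type := List (List (List ℚ)) × ℚ

/-- `(T, σ)` is a proper instance: `T` is a `d × d × d` array for some `d ≥ 1`, and `σ > 0`. -/
def IsInst (I : Inst) : Prop :=
  I.1 ≠ [] ∧ (∀ M ∈ I.1, M.length = I.1.length ∧ ∀ r ∈ M, r.length = I.1.length) ∧ 0 < I.2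

/-- The dimension `d` of an instance. -/
abbrev dm (I : Inst) : ℕ := I.1.length

/-- SPECTRAL-NORM-BOUND: is the spectral norm of `T` at most `σ`? -/
def SpectralNormBound (I : Inst) : Prop := IsInst I ∧ specNorm I.1 (dm I) ≤ (I.2 : ℝ)

/-- SPECTRAL-NORM-EXCEED: is the spectral norm of `T` greater than `σ`? -/
def SpectralNormExceed (I : Inst) : Prop := IsInst I ∧ (I.2 : ℝ) < specNorm I.1 (dm I)

theorem exceed_iff (T : List (List (List ℚ))) {d : ℕ} (hd : 0 < d) (σ : ℝ) :
    σ < specNorm T d ↔ ∃ x y z : Fin d → ℝ, ∑ i, x i ^ 2 = 1 ∧ ∑ i, y i ^ 2 = 1 ∧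
      ∑ i, z i ^ 2 = 1 ∧ σ < tri T d x y z := by
  rw [← not_le, specNorm_le_iff T hd]
  push Not
  constructor
  · rintro ⟨x, y, z, hx, hy, hz, h⟩
    rcases le_total 0 (tri T d x y z) with h0 | h0
    · rw [abs_of_nonneg h0] at h
      exact ⟨x, y, z, hx, hy, hz, h⟩
    · rw [abs_of_nonpos h0] at h
      refine ⟨fun i => - x i, y, z, ?_, hy, hz, ?_⟩
      · simpa using hx
      · have : tri T d (fun i => - x i) y z = - tri T d x y z := by
          unfold tri
          simp only [← Finset.sum_neg_distrib]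
          refine Finset.sum_congr rfl fun i _ => Finset.sum_congr rfl fun j _ =>
            Finset.sum_congr rfl fun k _ => by ring
        rw [this]
        exact h
  · rintro ⟨x, y, z, hx, hy, hz, h⟩
    exact ⟨x, y, z, hx, hy, hz, h.trans_le (le_abs_self _)⟩

/-! ### The formula -/

/-- The sum of the squares of the variables `4 i + c`, `i < d`, is one. -/
def sqs (d c : ℕ) : Fm :=
  Fm.eq (sumTm ((List.range d).map fun i => Tm.mul (Tm.var (4 * i + c)) (Tm.var (4 * i + c))))
    Tm.one

/-- All triples of indices. -/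
def triples (d : ℕ) : List (ℕ × ℕ × ℕ) :=
  (List.range d).flatMap fun i => (List.range d).flatMap fun j =>
    (List.range d).map fun k => (i, j, k)

/-- The variable of an entry. -/
def tv (d : ℕ) (m : ℕ × ℕ × ℕ) : ℕ := 4 * ((m.1 * d + m.2.1) * d + m.2.2) + 3

/-- The variable of the bound. -/
def sgv (d : ℕ) : ℕ := 4 * (d * d * d) + 3

/-- The term of a summand. -/
def summ (d : ℕ) (m : ℕ × ℕ × ℕ) : Tm :=
  Tm.mul (Tm.mul (Tm.mul (Tm.var (tv d m)) (Tm.var (4 * m.1))) (Tm.var (4 * m.2.1 + 1)))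
    (Tm.var (4 * m.2.2 + 2))

/-- The formula of an instance. -/
def exF (I : Inst) : Fm :=
  conj (sqs (dm I) 0 :: sqs (dm I) 1 :: sqs (dm I) 2 :: eqRat (Tm.var (sgv (dm I))) I.2 ::
    Fm.lt (Tm.var (sgv (dm I))) (sumTm ((triples (dm I)).map (summ (dm I)))) ::
    (triples (dm I)).map fun m => eqRat (Tm.var (tv (dm I) m)) (entry I.1 m.1 m.2.1 m.2.2))

theorem holds_sqs (v : ℕ → ℝ) (d c : ℕ) :
    (sqs d c).Holds v ↔ ∑ i : Fin d, v (4 * i + c) ^ 2 = 1 := by
  unfold sqs
  simp only [Fm.Holds, eval_sumTm, List.map_map, Tm.eval]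
  have h1 : ∀ n, (((List.range n).map (Tm.eval v ∘ fun i =>
      Tm.mul (Tm.var (4 * i + c)) (Tm.var (4 * i + c))))).sum =
        ∑ i ∈ Finset.range n, v (4 * i + c) ^ 2 := by
    intro n
    induction n with
    | zero => simp
    | succ n ih =>
      rw [List.range_succ, List.map_append, List.sum_append, ih, Finset.sum_range_succ]
      simp [Tm.eval, sq]
  rw [h1, ← Fin.sum_univ_eq_sum_range (fun i => v (4 * i + c) ^ 2) d]

theorem sum_triples (d : ℕ) (f : ℕ × ℕ × ℕ → ℝ) : ((triples d).map f).sum =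
    ∑ i : Fin d, ∑ j : Fin d, ∑ k : Fin d, f (i, j, k) := by
  unfold triples
  rw [sum_range_flatMap, ← Fin.sum_univ_eq_sum_range (fun i => ((((List.range d).flatMap fun j =>
    (List.range d).map fun k => (i, j, k))).map f).sum) d]
  refine Finset.sum_congr rfl fun i _ => ?_
  rw [sum_range_flatMap, ← Fin.sum_univ_eq_sum_range (fun j => ((
    (List.range d).map fun k => ((i : ℕ), j, k)).map f).sum) d]
  refine Finset.sum_congr rfl fun j _ => ?_
  have h1 : ∀ n, (((List.range n).map fun k => ((i : ℕ), (j : ℕ), k)).map f).sum =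
      ∑ k ∈ Finset.range n, f (i, j, k) := by
    intro n
    induction n with
    | zero => simp
    | succ n ih =>
      rw [List.range_succ, List.map_append, List.map_append, List.sum_append, ih,
        Finset.sum_range_succ]
      simp
  rw [h1, ← Fin.sum_univ_eq_sum_range (fun k => f (i, j, k)) d]

theorem mem_triples {d : ℕ} {m : ℕ × ℕ × ℕ} : m ∈ triples d ↔ m.1 < d ∧ m.2.1 < d ∧ m.2.2 < d := by
  obtain ⟨i, j, k⟩ := m
  simp [triples]

theorem holds_exF (v : ℕ → ℝ) (I : Inst) : (exF I).Holds v ↔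
    (∑ i : Fin (dm I), v (4 * i) ^ 2 = 1 ∧ ∑ i : Fin (dm I), v (4 * i + 1) ^ 2 = 1 ∧
      ∑ i : Fin (dm I), v (4 * i + 2) ^ 2 = 1 ∧ v (sgv (dm I)) = I.2 ∧
      v (sgv (dm I)) < ∑ i : Fin (dm I), ∑ j : Fin (dm I), ∑ k : Fin (dm I),
        v (tv (dm I) (i, j, k)) * v (4 * i) * v (4 * j + 1) * v (4 * k + 2)) ∧
      ∀ m : ℕ × ℕ × ℕ, m.1 < dm I → m.2.1 < dm I → m.2.2 < dm I →
        v (tv (dm I) m) = entry I.1 m.1 m.2.1 m.2.2 := by
  unfold exF
  rw [holds_conj]
  simp only [List.forall_mem_cons, holds_sqs, holds_eqRat, Tm.eval, Fm.Holds, eval_sumTm,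
    List.map_map, List.forall_mem_map, mem_triples, add_zero]
  rw [show (Tm.eval v ∘ summ (dm I)) = fun m : ℕ × ℕ × ℕ =>
    v (tv (dm I) m) * v (4 * m.1) * v (4 * m.2.1 + 1) * v (4 * m.2.2 + 2) from rfl, sum_triples]
  constructor
  · rintro ⟨h1, h2, h3, h4, h5, h6⟩
    exact ⟨⟨h1, h2, h3, h4, h5⟩, fun m a b c => h6 m ⟨a, b, c⟩⟩
  · rintro ⟨⟨h1, h2, h3, h4, h5⟩, h6⟩
    exact ⟨h1, h2, h3, h4, h5, fun m h => h6 m h.1 h.2.1 h.2.2⟩

/-- A valuation with prescribed values. -/
theorem mkval (T : List (List (List ℚ))) (s : ℝ) {d : ℕ} (hI : 0 < d) (x y z : Fin d → ℝ) :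
    ∃ v : ℕ → ℝ, (∀ i : Fin d, v (4 * i) = x i) ∧ (∀ i : Fin d, v (4 * i + 1) = y i) ∧
      (∀ i : Fin d, v (4 * i + 2) = z i) ∧ v (sgv d) = s ∧
      ∀ m : ℕ × ℕ × ℕ, m.1 < d → m.2.1 < d → m.2.2 < d →
        v (tv d m) = entry T m.1 m.2.1 m.2.2 := by
  let g : (Fin d → ℝ) → ℕ → ℝ := fun w n => if h : n < d then w ⟨n, h⟩ else 0
  have hg : ∀ w (i : Fin d), g w i = w i := by intro w i; simp [g]
  let v : ℕ → ℝ := fun n => if n % 4 = 0 then g x (n / 4) else if n % 4 = 1 then g y (n / 4)
    else if n % 4 = 2 then g z (n / 4) else if n / 4 = d * d * d then s else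
      (entry T (n / 4 / d / d) (n / 4 / d % d) (n / 4 % d) : ℝ)
  refine ⟨v, ?_, ?_, ?_, ?_, ?_⟩
  · intro i
    simp only [v]
    rw [if_pos (by omega), show 4 * (i : ℕ) / 4 = i by omega, hg]
  · intro i
    simp only [v]
    rw [if_neg (by omega), if_pos (by omega), show (4 * (i : ℕ) + 1) / 4 = i by omega, hg]
  · intro i
    simp only [v]
    rw [if_neg (by omega), if_neg (by omega), if_pos (by omega),
      show (4 * (i : ℕ) + 2) / 4 = i by omega, hg]
  · simp only [v, sgv]
    rw [if_neg (by omega), if_neg (by omega), if_neg (by omega), if_pos (by omega)]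
  · intro m h1 h2 h3
    have e0 : tv d m / 4 = (m.1 * d + m.2.1) * d + m.2.2 := by unfold tv; omega
    have e1 : (m.1 * d + m.2.1) * d + m.2.2 < d * d * d := by
      have a1 : m.1 * d + m.2.1 + 1 ≤ d * d := by nlinarith
      nlinarith
    have e2 : ((m.1 * d + m.2.1) * d + m.2.2) / d = m.1 * d + m.2.1 := by
      rw [Nat.add_comm, Nat.add_mul_div_right _ _ hI, Nat.div_eq_of_lt h3, Nat.zero_add]
    have e3 : ((m.1 * d + m.2.1) * d + m.2.2) % d = m.2.2 := by
      rw [Nat.add_comm, Nat.add_mul_mod_self_right, Nat.mod_eq_of_lt h3]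
    have e4 : (m.1 * d + m.2.1) / d = m.1 := by
      rw [Nat.add_comm, Nat.add_mul_div_right _ _ hI, Nat.div_eq_of_lt h2, Nat.zero_add]
    have e5 : (m.1 * d + m.2.1) % d = m.2.1 := by
      rw [Nat.add_comm, Nat.add_mul_mod_self_right, Nat.mod_eq_of_lt h2]
    have e6 : tv d m % 4 = 3 := by unfold tv; omega
    simp only [v]
    rw [e6, if_neg (by omega), if_neg (by omega), if_neg (by omega), e0, if_neg e1.ne, e2, e3,
      e4, e5]

theorem etr_exF {I : Inst} (hI : 0 < dm I) : ETR (exF I) ↔ (I.2 : ℝ) < specNorm I.1 (dm I) := by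
  rw [exceed_iff _ hI]
  constructor
  · rintro ⟨v, hv⟩
    rw [holds_exF] at hv
    obtain ⟨⟨h1, h2, h3, h4, h5⟩, h6⟩ := hv
    refine ⟨fun i => v (4 * i), fun i => v (4 * i + 1), fun i => v (4 * i + 2), h1, h2, h3, ?_⟩
    rw [← h4]
    refine h5.trans_eq ?_
    unfold tri
    refine Finset.sum_congr rfl fun i _ => Finset.sum_congr rfl fun j _ =>
      Finset.sum_congr rfl fun k _ => ?_
    rw [h6 (i, j, k) i.2 j.2 k.2]
  · rintro ⟨x, y, z, hx, hy, hz, h⟩
    obtain ⟨v, v0, v1, v2, v3, v4⟩ := mkval I.1 (I.2 : ℝ) hI x y z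
    refine ⟨v, (holds_exF v I).2 ⟨⟨?_, ?_, ?_, v3, ?_⟩, v4⟩⟩
    · rw [← hx]
      exact Finset.sum_congr rfl fun i _ => by rw [v0]
    · rw [← hy]
      exact Finset.sum_congr rfl fun i _ => by rw [v1]
    · rw [← hz]
      exact Finset.sum_congr rfl fun i _ => by rw [v2]
    · rw [v3]
      refine h.trans_eq ?_
      unfold tri
      refine Finset.sum_congr rfl fun i _ => Finset.sum_congr rfl fun j _ =>
        Finset.sum_congr rfl fun k _ => ?_
      rw [v0, v1, v2, v4 (i, j, k) i.2 j.2 k.2]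

/-! ### Polynomial time -/

section

variable {α : Type} [TEnc α]

theorem poly_sqs {d : α → ℕ} (c : ℕ) (hd : UPoly d) : Poly (fun a => sqs (d a) c) := by
  unfold sqs
  refine poly_eq (poly_sumTm ?_) (Poly.const _)
  refine Poly.map (F := fun _ i => Tm.mul (Tm.var (4 * i + c)) (Tm.var (4 * i + c))) hd.range ?_
  exact poly_tmul (poly_tvar (by fun_prop)) (poly_tvar (by fun_prop))

theorem poly_triples {d : α → ℕ} (hd : UPoly d) : Poly (fun a => triples (d a)) := by
  unfold triples
  refine Poly.flatMap (F := fun a i => (List.range (d a)).flatMap fun j =>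
    (List.range (d a)).map fun k => (i, j, k)) hd.range ?_
  have hd1 : UPoly (fun p : α × ℕ => d p.1) := hd.comp (Poly.fst Poly.id)
  refine Poly.flatMap (F := fun (p : α × ℕ) j => (List.range (d p.1)).map fun k => (p.2, j, k))
    hd1.range ?_
  have hd2 : UPoly (fun p : (α × ℕ) × ℕ => d p.1.1) := hd1.comp (Poly.fst Poly.id)
  refine Poly.map (F := fun (p : (α × ℕ) × ℕ) k => (p.1.2, p.2, k)) hd2.range ?_
  fun_prop

theorem poly_entry {T : α → List (List (List ℚ))} {i j k : α → ℕ} (hT : Poly T) (hi : Poly i)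
    (hj : Poly j) (hk : Poly k) : Poly (fun a => entry (T a) (i a) (j a) (k a)) :=
  Poly.getD (Poly.getD (Poly.getD hT hi (Poly.const _)) hj (Poly.const _)) hk (Poly.const _)

theorem poly_tv {d : α → ℕ} {m : α → ℕ × ℕ × ℕ} (hd : Poly d) (hm : Poly m) :
    Poly (fun a => tv (d a) (m a)) := by
  unfold tv
  fun_prop

theorem poly_exF : Poly exF := by
  unfold exF
  have hd : UPoly (fun I : Inst => dm I) := UPoly.length (Poly.fst Poly.id)
  have hd' := hd.toPoly
  have hs : Poly (fun I : Inst => Tm.var (sgv (dm I))) := by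
    refine poly_tvar ?_
    unfold sgv
    fun_prop
  refine poly_conj ?_
  refine Poly.cons (poly_sqs 0 hd) (Poly.cons (poly_sqs 1 hd) (Poly.cons (poly_sqs 2 hd)
    (Poly.cons (poly_eqRat hs (Poly.snd Poly.id)) (Poly.cons (poly_lt hs (poly_sumTm ?_)) ?_))))
  · refine Poly.map (F := fun (I : Inst) m => summ (dm I) m) (poly_triples hd) ?_
    unfold summ
    exact poly_tmul (poly_tmul (poly_tmul (poly_tvar (poly_tv (hd'.comp (Poly.fst Poly.id))
      (Poly.snd Poly.id))) (poly_tvar (by fun_prop))) (poly_tvar (by fun_prop)))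
      (poly_tvar (by fun_prop))
  · refine Poly.map (F := fun (I : Inst) m => eqRat (Tm.var (tv (dm I) m))
      (entry I.1 m.1 m.2.1 m.2.2)) (poly_triples hd) ?_
    exact poly_eqRat (poly_tvar (poly_tv (hd'.comp (Poly.fst Poly.id)) (Poly.snd Poly.id)))
      (poly_entry (Poly.fst (Poly.fst Poly.id)) (by fun_prop) (by fun_prop) (by fun_prop))

open Classical in
theorem poly_isInst : Poly (fun I : Inst => decide (IsInst I)) := by
  have hd : Poly (fun I : Inst => dm I) := (UPoly.length (Poly.fst Poly.id)).toPoly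
  have h1 : Poly (fun I : Inst => decide (I.1 ≠ [])) :=
    Poly.decide_not (Poly.dec_eq (Poly.fst Poly.id) (Poly.const _))
  have h2 : Poly (fun I : Inst => I.1.all fun M => decide (M.length = dm I) &&
      M.all fun r => decide (r.length = dm I)) := by
    refine Poly.all (p := fun (I : Inst) M => decide (M.length = dm I) &&
      M.all fun r => decide (r.length = dm I)) (Poly.fst Poly.id) ?_
    refine Poly.and (Poly.dec_eq (by fun_prop) (hd.comp (Poly.fst Poly.id))) ?_
    refine Poly.all (p := fun (q : Inst × List (List ℚ)) r => decide (r.length = dm q.1))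
      (Poly.snd Poly.id) ?_
    exact Poly.dec_eq (by fun_prop) (hd.comp (Poly.fst (Poly.fst Poly.id)))
  have h3 : Poly (fun I : Inst => decide (0 < I.2)) := by
    have e : ∀ q : ℚ, decide (0 < q) = (!decide (q.num < 0) && !decide (q.num = 0)) := by
      intro q
      rw [Bool.eq_iff_iff]
      simp only [decide_eq_true_eq, Bool.and_eq_true, Bool.not_eq_true', decide_eq_false_iff_not]
      rw [← Rat.num_pos]
      omega
    refine Poly.congr ?_ fun I => (e I.2).symm
    exact Poly.and (Poly.not (poly_isNeg (poly_ratNum (Poly.snd Poly.id))))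
      (Poly.not (Poly.dec_eq (poly_ratNum (Poly.snd Poly.id)) (Poly.const _)))
  refine (Poly.and h1 (Poly.and h2 h3)).congr fun I => ?_
  rw [Bool.eq_iff_iff]
  simp [IsInst]

open Classical in
theorem poly_F (b : Fm) : Poly (fun I : Inst => if IsInst I then exF I else b) :=
  Poly.ite poly_isInst poly_exF (Poly.const _)

end

/-- Membership of a complement in `∃ℝ`. -/
theorem inER_compl {α : Type} [TEnc α] [TDec α] {P : α → Prop} {φ : α → Fm} (h : Poly φ)
    (hP : ∀ a, ¬ P a ↔ ETR (φ a)) : InER (lang P)ᶜ := by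
  refine ⟨fun w => match unbits α w with | none => tt | some a => φ a, ?_, fun w => ?_⟩
  · refine polyTime_bits (g := fun w => match unbits α w with | none => tt | some a => φ a) ?_
    exact Poly.optCases (g := fun _ => tt) (h := fun _ a => φ a) poly_unbits (Poly.const _)
      (h.comp (Poly.snd Poly.id))
  · rw [Set.mem_compl_iff, mem_lang_iff]
    cases hx : unbits α w with
    | none =>
      simp only [hx]
      have : ETR tt := ⟨fun _ => 0, holds_tt _⟩
      simp [this]
    | some a => simp only [hx]; simp [← hP a]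

open Classical in
theorem exceed_inER : InER (lang SpectralNormExceed) := by
  refine ER.InER.of_poly (poly_F ff) fun I => ?_
  unfold SpectralNormExceed
  split_ifs with h
  · rw [etr_exF (List.length_pos_iff.2 h.1)]
    exact and_iff_right h
  · exact iff_of_false (fun h' => h h'.1) not_etr_ff

open Classical in
theorem bound_inFR : InFR (lang SpectralNormBound) := by
  refine inER_compl (poly_F tt) fun I => ?_
  unfold SpectralNormBound
  split_ifs with h
  · rw [etr_exF (List.length_pos_iff.2 h.1), not_and, not_le]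
    exact ⟨fun h' => h' h, fun h' _ => h'⟩
  · exact iff_of_true (fun h' => h h'.1) ⟨fun _ => 0, holds_tt _⟩

theorem isInst_inst (S : List ER.Con) : IsInst (inst S) := by
  refine ⟨?_, ?_, ?_⟩
  · intro h
    have h1 : (inst S).1.length = 0 := by rw [h]; rfl
    have h2 : (inst S).1.length = dimT (formS S) (numS S) := by simp [inst, arr]
    have h3 := numS_pos S
    rw [h2] at h1
    unfold dimT at h1
    omega
  · intro M hM
    have h2 : (inst S).1.length = dimT (formS S) (numS S) := by simp [inst, arr]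
    rw [h2]
    simp only [inst, arr, List.mem_map] at hM
    obtain ⟨i, _, rfl⟩ := hM
    refine ⟨by simp, fun r hr => ?_⟩
    rw [List.mem_map] at hr
    obtain ⟨j, _, rfl⟩ := hr
    simp
  · simp only [inst]
    positivity

theorem exceed_hard : ERHard (lang SpectralNormExceed) := by
  refine ERHard.of_sys poly_inst fun S => ?_
  unfold SpectralNormExceed
  rw [and_iff_right (isInst_inst S), ← not_le, inst_spec, not_not]

theorem bound_hard : FRHard (lang SpectralNormBound) := by
  rintro L' ⟨g, hg, hL⟩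
  have h1 : PC (id : List Bool → List Bool) (bits : Fm → List Bool) g :=
    H642R2.TMSim.polyTime_toPC hg
  have h2 : Poly (fun φ : Fm => inst (sysOf φ)) := Poly.comp poly_inst (poly_sysOf Poly.id)
  have h3 : PC (id : List Bool → List Bool) (bits : Inst → List Bool)
      (fun x => inst (sysOf (g x))) :=
    PC.comp (g := fun φ : Fm => inst (sysOf φ)) (eb := (bits : Fm → List Bool)) h2 h1
  have h4 : PC (id : List Bool → List Bool) (id : List Bool → List Bool)
    (fun x => bits (inst (sysOf (g x)))) := h3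
  refine ⟨fun x => bits (inst (sysOf (g x))), PC.toPolyTime h4, fun x => ?_⟩
  have h5 : x ∈ L' ↔ ¬ ETR (g x) := by
    rw [← hL x]
    simp
  have h6 : SpectralNormBound (inst (sysOf (g x))) ↔ ¬ Sat (sysOf (g x)) := by
    unfold SpectralNormBound
    rw [and_iff_right (isInst_inst _)]
    exact inst_spec _
  rw [h5, ← sat_sysOf, ← h6]
  constructor
  · intro hP
    exact ⟨_, rfl, hP⟩
  · rintro ⟨a, ha, hP⟩
    rwa [bits_injective ha] at hP

end Pool.Agent.NPC.NH87SN
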