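import Pool.Agent.NH87.SN.Red
import Pool.Agent.H532R2.IntPoly
import Pool.Agent.H671R2.PolyAuto
import Pool.Agent.ER.Hard

/-!
# The reduction is computable in polynomial time
-/

namespace Pool.Agent.NPC.NH87SN

open Pool.Agent.NPC Pool.Agent.NPC.ER Pool.Agent.NH87.SN

section

variable {α β : Type} [TEnc α] [TEnc β]

theorem poly_errq {c : α → ER.Con} (hc : Poly c) : Poly (fun a => errq (c a)) := by
  have h0 : Poly (fun a => (c a).code) := poly_con_code hc
  have key : ∀ c : ER.Con, errq c = if c.code.1 = 0 then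
      rep8 (true, 3 * c.code.2.1 + 1, 0) ++ [(false, 0, 0)]
    else if c.code.1 = 1 then
      [(true, 3 * c.code.2.1 + 1, 0), (true, 3 * c.code.2.2.1 + 1, 0),
        (false, 3 * c.code.2.2.2 + 1, 0)]
    else [(true, 3 * c.code.2.1 + 1, 3 * c.code.2.2.1 + 1), (false, 3 * c.code.2.2.2 + 1, 0)] := by
    intro c
    cases c <;> rfl
  refine Poly.congr ?_ fun a => (key (c a)).symm
  unfold rep8
  fun_prop

theorem poly_vars {c : α → ER.Con} (hc : Poly c) : Poly (fun a => (c a).vars) := by
  have h0 : Poly (fun a => (c a).code) := poly_con_code hc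
  have key : ∀ c : ER.Con, c.vars = if c.code.1 = 0 then [c.code.2.1]
    else [c.code.2.1, c.code.2.2.1, c.code.2.2.2] := by
    intro c
    cases c <;> rfl
  refine Poly.congr ?_ fun a => (key (c a)).symm
  fun_prop

theorem poly_svars {S : α → List ER.Con} (hS : Poly S) : Poly (fun a => svars (S a)) := by
  unfold svars
  exact Poly.flatMap (F := fun _ c => ER.Con.vars c) hS (poly_vars (Poly.snd Poly.id))

theorem poly_quads {B : α → List ER.Con} {K : α → ℕ} (hB : Poly B) (hK : UPoly K) :
    Poly (fun a => quads (B a) (K a)) := by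
  unfold quads
  refine Poly.append ?_ (Poly.append ?_ (Poly.cons (Poly.const _) ?_))
  · exact Poly.map (F := fun _ c => errq c) hB (poly_errq (Poly.snd Poly.id))
  · refine Poly.map (F := fun _ i => ballq i) (poly_svars hB) ?_
    unfold ballq wv sv
    fun_prop
  · refine Poly.map (F := fun _ i => stepq i) hK.range ?_
    unfold stepq qe
    fun_prop

theorem poly_form {B : α → List ER.Con} {K : α → ℕ} (hB : Poly B) (hK : UPoly K) :
    Poly (fun a => form (B a) (K a)) := by
  unfold form
  refine Poly.append ?_ ?_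
  · refine Poly.flatMap (F := fun _ t => rep16 t) ?_ ?_
    · refine Poly.flatMap (F := fun _ q => sqr q) (poly_quads hB hK) ?_
      unfold sqr mm
      fun_prop
    · unfold rep16
      fun_prop
  · have hK' := hK.toPoly
    unfold lastq qe
    fun_prop

theorem upoly_gapK {S : α → List ER.Con} (hS : Poly S) : UPoly (fun a => gapK (S a).length) :=
  UPoly.add (UPoly.mul (UPoly.const 11) (UPoly.length hS)) (UPoly.const 7)

theorem poly_qvars {P : α → List Quart} (hP : Poly P) : Poly (fun a => qvars (P a)) := by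
  unfold qvars
  fun_prop

theorem poly_renP {P : α → List Quart} (hP : Poly P) : Poly (fun a => renP (P a)) := by
  unfold renP
  refine Poly.map (F := fun a t => renq (qvars (P a)) t) hP ?_
  have hV : Poly (fun p : α × Quart => qvars (P p.1)) := (poly_qvars hP).comp (Poly.fst Poly.id)
  unfold renq
  refine Poly.pair (by fun_prop) (Poly.pair (Poly.index hV (by fun_prop))
    (Poly.pair (Poly.index hV (by fun_prop)) (Poly.pair (Poly.index hV (by fun_prop))
      (Poly.index hV (by fun_prop)))))

theorem poly_formS {S : α → List ER.Con} (hS : Poly S) : Poly (fun a => formS (S a)) :=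
  poly_renP (poly_form (poly_bsys hS) (upoly_gapK (poly_bsys hS)))

theorem upoly_numS {S : α → List ER.Con} (hS : Poly S) : UPoly (fun a => numS (S a)) :=
  UPoly.length (poly_qvars (poly_form (poly_bsys hS) (upoly_gapK (poly_bsys hS))))

theorem poly_six {t : α → Quart} (ht : Poly t) : Poly (fun a => six (t a)) := by
  unfold six
  fun_prop

theorem poly_monos {P : α → List Quart} (hP : Poly P) : Poly (fun a => monos (P a)) := by
  unfold monos
  refine Poly.flatMap (F := fun _ t => (six t).flatMap fun m => [m.1, m.2]) hP ?_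
  exact Poly.flatMap (F := fun (_ : α × Quart) (m : (ℕ × ℕ) × (ℕ × ℕ)) => [m.1, m.2])
    (poly_six (Poly.snd Poly.id)) (by fun_prop)

theorem poly_count [BEq β] [LawfulBEq β] {l : α → List β} {b : α → β} (hl : Poly l)
    (hb : Poly b) : Poly (fun a => (l a).count (b a)) := by
  classical
  refine (Poly.length (Poly.filter (p := fun a x => decide (x = b a)) hl
    (Poly.dec_eq (Poly.snd Poly.id) (hb.comp (Poly.fst Poly.id))))).congr fun a => ?_
  rw [List.count_eq_countP, List.countP_eq_length_filter]
  congr 1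
  apply List.filter_congr
  intro x _
  by_cases h : x = b a
  · simp [h]
  · simp [h]

theorem poly_forms2 {t : α → Quart} (ht : Poly t) : Poly (fun a => forms2 (t a)) := by
  unfold forms2
  refine Poly.map (F := fun a m => (((1 : ℤ), m.1), ((if (t a).1 = true then (-1 : ℤ) else 1), m.2)))
    (poly_six ht) ?_
  have h : Poly (fun p : α × ((ℕ × ℕ) × (ℕ × ℕ)) => (t p.1).1) := by fun_prop
  exact Poly.pair (by fun_prop) (Poly.pair (Poly.ite (Poly.decide_bool h) (Poly.const _)
    (Poly.const _)) (by fun_prop))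

theorem poly_repl {n : α → ℕ} {b : α → β} (hn : UPoly n) (hb : Poly b) :
    Poly (fun a => List.replicate (n a) (b a)) := by
  refine (Poly.map (F := fun a _ => b a) hn (hb.comp (Poly.fst Poly.id))).congr fun a => ?_
  simp

theorem poly_forms3 {P : α → List Quart} {N : α → ℕ} (hP : Poly P) (hN : UPoly N) :
    Poly (fun a => forms3 (P a) (N a)) := by
  unfold forms3
  refine Poly.flatMap (F := fun a i => (List.range (N a)).flatMap fun j =>
    List.replicate (12 * (P a).length + 9 - (monos (P a)).count (i, j))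
      (((1, i, j), (0, 0, 0)) : PF)) hN.range ?_
  refine Poly.flatMap (F := fun (p : α × ℕ) j =>
    List.replicate (12 * (P p.1).length + 9 - (monos (P p.1)).count (p.2, j))
      (((1, p.2, j), (0, 0, 0)) : PF)) (hN.comp (Poly.fst Poly.id)).range ?_
  have hP' : Poly (fun q : (α × ℕ) × ℕ => P q.1.1) := hP.comp (Poly.fst (Poly.fst Poly.id))
  refine poly_repl (UPoly.of_le (n := fun q : (α × ℕ) × ℕ => 12 * (P q.1.1).length + 9) ?_ ?_ ?_) ?_
  · have h1 := poly_count (poly_monos hP')
      (Poly.pair (Poly.snd (Poly.fst (α := (α × ℕ) × ℕ) Poly.id)) (Poly.snd Poly.id))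
    exact Poly.sub (by fun_prop) h1
  · exact UPoly.add (UPoly.mul (UPoly.const 12) (UPoly.length hP')) (UPoly.const 9)
  · intro q
    exact Nat.sub_le _ _
  · fun_prop

theorem poly_pforms {P : α → List Quart} {N : α → ℕ} (hP : Poly P) (hN : UPoly N) :
    Poly (fun a => pforms (P a) (N a)) :=
  Poly.append (Poly.flatMap (F := fun _ t => forms2 t) hP (poly_forms2 (Poly.snd Poly.id)))
    (poly_forms3 hP hN)

theorem upoly_dimT {P : α → List Quart} {N : α → ℕ} (hP : Poly P) (hN : UPoly N) :
    UPoly (fun a => dimT (P a) (N a)) :=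
  UPoly.add (UPoly.add hN (UPoly.const 1)) (UPoly.length (poly_pforms hP hN))

theorem poly_coefP {b : α → PF} {i j : α → ℕ} (hb : Poly b) (hi : Poly i) (hj : Poly j) :
    Poly (fun a => coefP (b a) (i a) (j a)) := by
  unfold coefP
  refine H532.Poly_addZ ?_ ?_
  · exact Poly.ite (by fun_prop) (by fun_prop) (by fun_prop)
  · exact Poly.ite (by fun_prop) (by fun_prop) (by fun_prop)

theorem poly_tens {P : α → List Quart} {N i j k : α → ℕ} (hP : Poly P) (hN : UPoly N)
    (hi : Poly i) (hj : Poly j) (hk : Poly k) :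
    Poly (fun a => tens (P a) (N a) (i a) (j a) (k a)) := by
  unfold tens
  have hN' := hN.toPoly
  refine Poly.ite (by fun_prop) (Poly.ite (by fun_prop) (by fun_prop) (by fun_prop)) ?_
  exact poly_coefP (Poly.getD (poly_pforms hP hN) (by fun_prop) (Poly.const _)) hi hj

theorem poly_intToRat {z : α → ℤ} (hz : Poly z) : Poly (fun a => ((z a : ℤ) : ℚ)) := by
  have h : Poly (fun a => (z a, (1 : ℕ))) := Poly.pair hz (Poly.const 1)
  have h2 : Poly (fun a => (((z a : ℤ) : ℚ).num, ((z a : ℤ) : ℚ).den)) :=
    h.congr fun a => by simp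
  exact h2

theorem poly_natToRat {z : α → ℕ} (hz : Poly z) : Poly (fun a => ((z a : ℕ) : ℚ)) :=
  (poly_intToRat (Poly.natCast_int hz)).congr fun a => by simp

theorem poly_arr {P : α → List Quart} {N : α → ℕ} (hP : Poly P) (hN : UPoly N) :
    Poly (fun a => arr (P a) (N a)) := by
  unfold arr
  have hd := upoly_dimT hP hN
  refine Poly.map (F := fun a i => (List.range (dimT (P a) (N a))).map fun j =>
    (List.range (dimT (P a) (N a))).map fun k => ((tens (P a) (N a) i j k : ℤ) : ℚ)) hd.range ?_
  have hd1 : UPoly (fun p : α × ℕ => dimT (P p.1) (N p.1)) := hd.comp (Poly.fst Poly.id)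
  refine Poly.map (F := fun (p : α × ℕ) j => (List.range (dimT (P p.1) (N p.1))).map fun k =>
    ((tens (P p.1) (N p.1) p.2 j k : ℤ) : ℚ)) hd1.range ?_
  have hd2 : UPoly (fun p : (α × ℕ) × ℕ => dimT (P p.1.1) (N p.1.1)) :=
    hd1.comp (Poly.fst Poly.id)
  refine Poly.map (F := fun (p : (α × ℕ) × ℕ) k =>
    ((tens (P p.1.1) (N p.1.1) p.1.2 p.2 k : ℤ) : ℚ)) hd2.range ?_
  have hP3 : Poly (fun p : ((α × ℕ) × ℕ) × ℕ => P p.1.1.1) :=
    hP.comp (Poly.fst (Poly.fst (Poly.fst Poly.id)))
  have hN3 : UPoly (fun p : ((α × ℕ) × ℕ) × ℕ => N p.1.1.1) :=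
    hN.comp (Poly.fst (Poly.fst (Poly.fst Poly.id)))
  exact poly_intToRat (poly_tens hP3 hN3 (Poly.snd (Poly.fst (Poly.fst Poly.id)))
    (Poly.snd (Poly.fst Poly.id)) (Poly.snd Poly.id))

/-- The reduction is computable in polynomial time. -/
theorem poly_inst : Poly inst := by
  unfold inst
  refine Poly.pair (poly_arr (poly_formS Poly.id) (upoly_numS Poly.id)) (poly_natToRat ?_)
  have h := poly_formS (α := List ER.Con) Poly.id
  fun_prop

end

end Pool.Agent.NPC.NH87SN
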