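import Pool.Agent.NH87.SN.Tensor
import Pool.Agent.ER.GapSys
import Pool.Agent.NPC.Sat2

/-!
# From systems of constraints to quartic forms
-/

namespace Pool.Agent.NH87.SN

open Pool.Agent.NPC Pool.Agent.NPC.ER

/-- A quadratic form as a list of signed monomials. -/
abbrev Quad : Type := List (Bool × ℕ × ℕ)

/-- The value of a signed quadratic monomial. -/
def mv (z : ℕ → ℝ) (t : Bool × ℕ × ℕ) : ℝ := sg t.1 * (z t.2.1 * z t.2.2)

/-- The value of a quadratic form. -/
def qv (z : ℕ → ℝ) (q : Quad) : ℝ := (q.map (mv z)).sum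

/-- The product of two signed quadratic monomials. -/
def mm (a b : Bool × ℕ × ℕ) : Quart := (!(a.1 ^^ b.1), a.2.1, a.2.2, b.2.1, b.2.2)

/-- The square of a quadratic form. -/
def sqr (q : Quad) : List Quart := q.flatMap fun a => q.map fun b => mm a b

/-- Sixteen copies. -/
def rep16 (t : Quart) : List Quart := [t, t, t, t, t, t, t, t, t, t, t, t, t, t, t, t]

theorem qval_mm (z : ℕ → ℝ) (a b : Bool × ℕ × ℕ) : qval z (mm a b) = mv z a * mv z b := by
  rcases a with ⟨_ | _, i, j⟩ <;> rcases b with ⟨_ | _, k, l⟩ <;>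
    simp [qval, mm, mv, sg] <;> ring

theorem fval_append (P Q : List Quart) (z : ℕ → ℝ) : fval (P ++ Q) z = fval P z + fval Q z := by
  simp [fval]

theorem fval_flatMap {β : Type} (l : List β) (F : β → List Quart) (z : ℕ → ℝ) :
    fval (l.flatMap F) z = (l.map fun b => fval (F b) z).sum := by
  induction l with
  | nil => simp [fval]
  | cons b l ih => rw [List.flatMap_cons, fval_append, ih]; simp

theorem fval_sqr (q : Quad) (z : ℕ → ℝ) : fval (sqr q) z = qv z q ^ 2 := by
  unfold sqr
  rw [fval_flatMap]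
  have h1 : ∀ a, fval (q.map fun b => mm a b) z = mv z a * qv z q := by
    intro a
    unfold fval qv
    rw [List.map_map]
    have h2 : (qval z ∘ fun b => mm a b) = fun b => mv z a * mv z b := by
      funext b
      exact qval_mm z a b
    rw [h2, List.sum_map_mul_left]
  simp only [h1]
  rw [List.sum_map_mul_right, sq]
  rfl

theorem fval_rep16 (P : List Quart) (z : ℕ → ℝ) : fval (P.flatMap rep16) z = 16 * fval P z := by
  induction P with
  | nil => simp [fval]
  | cons t P ih =>
    rw [List.flatMap_cons, fval_append, ih]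
    simp only [fval, rep16, List.map_cons, List.map_nil, List.sum_cons, List.sum_nil]
    ring

/-! ### The variables -/

/-- The variable `wᵢ`. -/
def wv (i : ℕ) : ℕ := 3 * i + 1

/-- The slack variable `sᵢ`. -/
def sv (i : ℕ) : ℕ := 3 * i + 2

/-- The variable `eⱼ` for the repeated squares. -/
def qe (j : ℕ) : ℕ := 3 * j + 3

/-- Eight copies of a monomial. -/
def rep8 (t : Bool × ℕ × ℕ) : Quad := [t, t, t, t, t, t, t, t]

/-- The homogenised error of a constraint. -/
def errq : ER.Con → Quad
  | ER.Con.one i => rep8 (true, wv i, 0) ++ [(false, 0, 0)]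
  | ER.Con.add i j k => [(true, wv i, 0), (true, wv j, 0), (false, wv k, 0)]
  | ER.Con.mul i j k => [(true, wv i, wv j), (false, wv k, 0)]

/-- `2 wᵢ² + sᵢ² - z₀²`. -/
def ballq (i : ℕ) : Quad := [(true, wv i, wv i), (true, wv i, wv i), (true, sv i, sv i), (false, 0, 0)]

/-- `8 e₀ z₀ - z₀²`. -/
def startq : Quad := rep8 (true, qe 0, 0) ++ [(false, 0, 0)]

/-- `e_{j+1} z₀ - eⱼ²`. -/
def stepq (j : ℕ) : Quad := [(true, qe (j + 1), 0), (false, qe j, qe j)]

/-- All quadratic forms. -/
def quads (B : List Con) (K : ℕ) : List Quad :=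
  B.map errq ++ ((svars B).map ballq ++ (startq :: (List.range K).map stepq))

/-- The last two monomials `- z₀² e_K² + e_K⁴`. -/
def lastq (K : ℕ) : List Quart :=
  [(false, 0, 0, qe K, qe K), (true, qe K, qe K, qe K, qe K)]

/-- The quartic form. -/
def form (B : List Con) (K : ℕ) : List Quart :=
  ((quads B K).flatMap sqr).flatMap rep16 ++ lastq K

theorem fval_form (B : List Con) (K : ℕ) (z : ℕ → ℝ) : fval (form B K) z =
    16 * ((quads B K).map fun q => qv z q ^ 2).sum - z 0 ^ 2 * z (qe K) ^ 2 + z (qe K) ^ 4 := by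
  unfold form
  rw [fval_append, fval_rep16, fval_flatMap]
  have h : ((quads B K).map fun b => fval (sqr b) z).sum =
      ((quads B K).map fun q => qv z q ^ 2).sum := by
    congr 1
    apply List.map_congr_left
    intro q _
    exact fval_sqr q z
  rw [h]
  simp only [lastq, fval, qval, sg, List.map_cons, List.map_nil, List.sum_cons, List.sum_nil]
  simp only [Bool.false_eq_true, if_false, if_true]
  ring

theorem qv_errq {z : ℕ → ℝ} (hz : z 0 = 1) (c : Con) :
    qv z (errq c) = c.err (fun i => z (wv i)) := by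
  cases c <;> simp [errq, qv, mv, sg, rep8, Con.err, hz] <;> ring

theorem qv_ballq {z : ℕ → ℝ} (hz : z 0 = 1) (i : ℕ) :
    qv z (ballq i) = 2 * z (wv i) ^ 2 + z (sv i) ^ 2 - 1 := by
  simp [ballq, qv, mv, sg, hz]; ring

theorem qv_startq {z : ℕ → ℝ} (hz : z 0 = 1) : qv z startq = 8 * z (qe 0) - 1 := by
  simp [startq, qv, mv, sg, rep8, hz]; ring

theorem qv_stepq {z : ℕ → ℝ} (hz : z 0 = 1) (j : ℕ) :
    qv z (stepq j) = z (qe (j + 1)) - z (qe j) ^ 2 := by
  simp [stepq, qv, mv, sg, hz]; ring

/-! ### From a solution to a negative value -/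

theorem neg_of_sat {S : List Con} (h : Sat S) (K : ℕ) : ∃ z, fval (form (bsys S) K) z < 0 := by
  obtain ⟨w, hw, hc⟩ := bsys_of_sat h
  let z : ℕ → ℝ := fun n => if n = 0 then 1 else if n % 3 = 1 then w (n / 3) else
    if n % 3 = 2 then √(1 - 2 * w (n / 3) ^ 2) else (1 / 8) ^ 2 ^ (n / 3 - 1)
  have hz0 : z 0 = 1 := by simp [z]
  have hzw : ∀ i, z (wv i) = w i := by
    intro i
    simp only [z, wv]
    rw [if_neg (by omega), if_pos (by omega)]
    congr 1
    omega
  have hzs : ∀ i, z (sv i) = √(1 - 2 * w i ^ 2) := by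
    intro i
    simp only [z, sv]
    rw [if_neg (by omega), if_neg (by omega), if_pos (by omega)]
    have : (3 * i + 2) / 3 = i := by omega
    rw [this]
  have hze : ∀ j, z (qe j) = (1 / 8) ^ 2 ^ j := by
    intro j
    simp only [z, qe]
    rw [if_neg (by omega), if_neg (by omega), if_neg (by omega)]
    have : (3 * j + 3) / 3 - 1 = j := by omega
    rw [this]
  refine ⟨z, ?_⟩
  rw [fval_form]
  have hsum : ((quads (bsys S) K).map fun q => qv z q ^ 2).sum = 0 := by
    apply List.sum_eq_zero
    intro r hr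
    rw [List.mem_map] at hr
    obtain ⟨q, hq, rfl⟩ := hr
    suffices h : qv z q = 0 by rw [h]; ring
    unfold quads at hq
    rw [List.mem_append, List.mem_append, List.mem_cons, List.mem_map, List.mem_map,
      List.mem_map] at hq
    rcases hq with ⟨c, hcB, rfl⟩ | ⟨i, _, rfl⟩ | rfl | ⟨j, _, rfl⟩
    · rw [qv_errq hz0]
      simp only [hzw]
      exact Con.err_eq_zero.2 (hc c hcB)
    · rw [qv_ballq hz0, hzw, hzs, Real.sq_sqrt]
      · ring
      · have h1 := hw i
        have h2 : w i ^ 2 ≤ (1 / 8) ^ 2 := sq_le_sq' (by linarith [neg_le_of_abs_le h1])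
          (le_of_abs_le h1)
        nlinarith
    · rw [qv_startq hz0, hze]
      norm_num
    · rw [qv_stepq hz0, hze, hze, ← pow_mul, pow_succ]
      ring
  rw [hsum, hz0, hze]
  set t : ℝ := (1 / 8) ^ 2 ^ K with ht
  have ht0 : 0 < t := by positivity
  have ht1 : t < 1 := by
    rw [ht]
    exact pow_lt_one₀ (by norm_num) (by norm_num) (by positivity)
  nlinarith [mul_pos ht0 ht0, mul_pos (mul_pos ht0 ht0) (sub_pos.2 ht1)]

/-! ### From a negative value to a solution -/

theorem sum_sq_ge {l : List Quad} {z : ℕ → ℝ} {q : Quad} (hq : q ∈ l) :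
    qv z q ^ 2 ≤ (l.map fun q => qv z q ^ 2).sum := by
  induction l with
  | nil => simp at hq
  | cons a l ih =>
    have h0 : 0 ≤ (l.map fun q => qv z q ^ 2).sum := by
      apply List.sum_nonneg
      intro r hr
      rw [List.mem_map] at hr
      obtain ⟨b, _, rfl⟩ := hr
      positivity
    rw [List.map_cons, List.sum_cons]
    rcases List.mem_cons.1 hq with rfl | hq
    · linarith
    · have := ih hq
      have h1 : 0 ≤ qv z a ^ 2 := sq_nonneg _
      linarith

/-- The chain of repeated squares. -/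
theorem chain {K : ℕ} {a : ℕ → ℝ} {η : ℝ} (hη0 : 0 < η) (hη : η ≤ 1 / 4) (ha : ∀ j, 0 ≤ a j)
    (h0 : a 0 ≤ 1 / 4) (hs : ∀ j < K, a (j + 1) ≤ a j ^ 2 + η) (hK : a K = 4 * η) :
    a K ≤ (1 / 2) ^ 2 ^ K := by
  have h1 : ∀ i ≤ K, 2 * η ≤ a (K - i) := by
    intro i
    induction i with
    | zero => intro _; rw [Nat.sub_zero, hK]; linarith
    | succ i ih =>
      intro hi
      have h2 := ih (by omega)
      have h3 := hs (K - (i + 1)) (by omega)
      have h4 : K - (i + 1) + 1 = K - i := by omega
      rw [h4] at h3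
      by_contra hlt
      push Not at hlt
      have h5 : a (K - (i + 1)) ^ 2 ≤ (2 * η) ^ 2 := pow_le_pow_left₀ (ha _) hlt.le 2
      have h6 : η ≤ a (K - (i + 1)) ^ 2 := by linarith
      have h7 : a (K - (i + 1)) ^ 2 < (2 * η) ^ 2 := pow_lt_pow_left₀ hlt (ha _) (by norm_num)
      nlinarith
  have h2 : ∀ j ≤ K, 2 * a j ≤ (1 / 2) ^ 2 ^ j := by
    intro j
    induction j with
    | zero => intro _; norm_num; linarith
    | succ j ih =>
      intro hj
      have h3 := ih (by omega)
      have h4 := hs j (by omega)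
      have h5 := h1 (K - (j + 1)) (by omega)
      have h6 : K - (K - (j + 1)) = j + 1 := by omega
      rw [h6] at h5
      have h7 : a (j + 1) ≤ 2 * a j ^ 2 := by linarith
      have h8 : (2 * a j) ^ 2 ≤ ((1 / 2) ^ 2 ^ j) ^ 2 :=
        pow_le_pow_left₀ (by linarith [ha j]) h3 2
      rw [← pow_mul, ← pow_succ] at h8
      nlinarith
  have h3 := h2 K le_rfl
  linarith [ha K]

theorem sat_of_neg {S : List Con} {z : ℕ → ℝ}
    (h : fval (form (bsys S) (gapK (bsys S).length)) z < 0) : Sat S := by
  set B := bsys S with hB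
  set K := gapK B.length with hK
  -- `z 0 ≠ 0`
  have hz0 : z 0 ≠ 0 := by
    intro h0
    rw [fval_form, h0] at h
    have h1 : 0 ≤ ((quads B K).map fun q => qv z q ^ 2).sum := by
      apply List.sum_nonneg
      intro r hr
      rw [List.mem_map] at hr
      obtain ⟨b, _, rfl⟩ := hr
      positivity
    have h2 : 0 ≤ z (qe K) ^ 4 := by positivity
    nlinarith
  -- normalise
  obtain ⟨y, hy0, hy⟩ : ∃ y : ℕ → ℝ, y 0 = 1 ∧ fval (form B K) y < 0 := by
    refine ⟨fun i => (z 0)⁻¹ * z i, inv_mul_cancel₀ hz0, ?_⟩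
    rw [fval_smul]
    exact mul_neg_of_pos_of_neg (by positivity) h
  clear h hz0
  rw [fval_form, hy0] at hy
  set E := |y (qe K)| with hE
  have hE2 : y (qe K) ^ 2 = E ^ 2 := (sq_abs _).symm
  have hE4 : y (qe K) ^ 4 = E ^ 4 := by
    have : y (qe K) ^ 4 = (y (qe K) ^ 2) ^ 2 := by ring
    rw [this, hE2]; ring
  rw [hE2, hE4] at hy
  have hE0 : 0 ≤ E := abs_nonneg _
  have hall : ∀ q ∈ quads B K, 16 * qv y q ^ 2 < E ^ 2 - E ^ 4 := by
    intro q hq
    have := sum_sq_ge (z := y) hq
    nlinarith
  have hq1 : 16 * (8 * y (qe 0) - 1) ^ 2 < E ^ 2 - E ^ 4 := by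
    rw [← qv_startq hy0]
    exact hall _ (by simp [quads])
  have hEpos : 0 < E := by
    rcases hE0.eq_or_lt with h | h
    · exfalso
      rw [← h] at hq1
      have : 0 ≤ 16 * (8 * y (qe 0) - 1) ^ 2 := by positivity
      norm_num at hq1
      linarith
    · exact h
  have hE1 : E < 1 := by
    by_contra hge
    push Not at hge
    have h1 : 0 ≤ 16 * (8 * y (qe 0) - 1) ^ 2 := by positivity
    have h2 : E ^ 2 ≤ E ^ 4 := pow_le_pow_right₀ hge (by norm_num)
    linarith
  have habs : ∀ q ∈ quads B K, |qv y q| ≤ E / 4 := by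
    intro q hq
    have h1 := hall q hq
    apply abs_le_of_sq_le_sq
    · have h2 : 0 ≤ E ^ 4 := by positivity
      nlinarith
    · positivity
  have h0 : |y (qe 0)| ≤ 1 / 4 := by
    have h1 := habs startq (by simp [quads])
    rw [qv_startq hy0, abs_le] at h1
    rw [abs_le]
    constructor <;> linarith
  have hst : ∀ j < K, |y (qe (j + 1))| ≤ |y (qe j)| ^ 2 + E / 4 := by
    intro j hj
    have h1 := habs (stepq j) (by
      unfold quads
      rw [List.mem_append, List.mem_append, List.mem_cons]
      right; right; right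
      exact List.mem_map_of_mem (List.mem_range.2 hj))
    rw [qv_stepq hy0] at h1
    have h2 : y (qe (j + 1)) = (y (qe (j + 1)) - y (qe j) ^ 2) + y (qe j) ^ 2 := by ring
    rw [h2]
    refine (abs_add_le _ _).trans ?_
    rw [sq_abs, abs_of_nonneg (sq_nonneg (y (qe j)))]
    linarith
  have hch := chain (K := K) (a := fun j => |y (qe j)|) (η := E / 4) (by positivity)
    (by linarith) (fun j => abs_nonneg _) h0 hst (by rw [← hE]; ring)
  rw [← hE] at hch
  have happ : ∃ w', ∀ c ∈ B, c.HoldsC (1 / 8) w' := by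
    refine holds_of_approx (w := fun i => y (wv i)) ?_ ?_
    · intro i hi
      have h1 := habs (ballq i) (by
        unfold quads
        rw [List.mem_append, List.mem_append, List.mem_cons]
        right; left
        exact List.mem_map_of_mem hi)
      rw [qv_ballq hy0, abs_le] at h1
      apply abs_le_of_sq_le_sq (b := (1 : ℝ)) _ zero_le_one
      nlinarith [sq_nonneg (y (sv i))]
    · intro c hc
      have h1 := habs (errq c) (by
        unfold quads
        rw [List.mem_append]
        left
        exact List.mem_map_of_mem hc)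
      rw [qv_errq hy0] at h1
      have h2 : |c.err fun i => y (wv i)| ≤ (1 / 2) ^ 2 ^ K := by linarith
      calc |c.err fun i => y (wv i)| * 2 ^ 2 ^ gapK B.length
          ≤ (1 / 2) ^ 2 ^ K * 2 ^ 2 ^ K := mul_le_mul_of_nonneg_right h2 (by positivity)
        _ = 1 := by rw [← mul_pow]; norm_num
  obtain ⟨w', hw'⟩ := happ
  exact sat_of_bsys hw'

/-! ### Renaming -/

/-- The indices of a quartic form. -/
def qvars (P : List Quart) : List ℕ :=
  P.flatMap fun t => [t.2.1, t.2.2.1, t.2.2.2.1, t.2.2.2.2]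

/-- Renaming of a monomial. -/
noncomputable def renq (V : List ℕ) (t : Quart) : Quart :=
  (t.1, index V t.2.1, index V t.2.2.1, index V t.2.2.2.1, index V t.2.2.2.2)

/-- Renaming of the variables by positions. -/
noncomputable def renP (P : List Quart) : List Quart := P.map (renq (qvars P))

theorem mem_qvars {P : List Quart} {t : Quart} (ht : t ∈ P) :
    t.2.1 ∈ qvars P ∧ t.2.2.1 ∈ qvars P ∧ t.2.2.2.1 ∈ qvars P ∧ t.2.2.2.2 ∈ qvars P := by
  simp only [qvars, List.mem_flatMap]
  exact ⟨⟨t, ht, by simp⟩, ⟨t, ht, by simp⟩, ⟨t, ht, by simp⟩, ⟨t, ht, by simp⟩⟩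

theorem ind_renP (P : List Quart) : ∀ t ∈ renP P, Ind (qvars P).length t := by
  intro t ht
  unfold renP at ht
  rw [List.mem_map] at ht
  obtain ⟨s, hs, rfl⟩ := ht
  obtain ⟨h1, h2, h3, h4⟩ := mem_qvars hs
  exact ⟨index_lt h1, index_lt h2, index_lt h3, index_lt h4⟩

theorem nonneg_renP (P : List Quart) : (∀ z, 0 ≤ fval (renP P) z) ↔ ∀ z, 0 ≤ fval P z := by
  constructor
  · intro h z
    have h1 := h fun n => z ((qvars P).getD n 0)
    have h2 : fval (renP P) (fun n => z ((qvars P).getD n 0)) = fval P z := by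
      unfold fval renP
      rw [List.map_map]
      congr 1
      apply List.map_congr_left
      intro t ht
      obtain ⟨h1, h2, h3, h4⟩ := mem_qvars ht
      have e : ∀ v ∈ qvars P, z ((qvars P).getD (index (qvars P) v) 0) = z v := by
        intro v hv
        rw [List.getD_eq_getElem?_getD, getElem?_index hv]
        rfl
      simp only [Function.comp, qval, renq, e _ h1, e _ h2, e _ h3, e _ h4]
    rwa [h2] at h1
  · intro h z
    have h1 := h fun v => z (index (qvars P) v)
    have h2 : fval P (fun v => z (index (qvars P) v)) = fval (renP P) z := by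
      unfold fval renP
      rw [List.map_map]
      congr 1
    rwa [h2] at h1

/-- The quartic form of a system. -/
noncomputable def formS (S : List Con) : List Quart :=
  renP (form (bsys S) (gapK (bsys S).length))

/-- The number of variables. -/
def numS (S : List Con) : ℕ := (qvars (form (bsys S) (gapK (bsys S).length))).length

theorem numS_pos (S : List Con) : 0 < numS S := by
  unfold numS form lastq qvars
  simp

theorem formS_ind (S : List Con) : ∀ t ∈ formS S, Ind (numS S) t := ind_renP _

theorem formS_nonneg (S : List Con) : (∀ z, 0 ≤ fval (formS S) z) ↔ ¬ Sat S := by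
  unfold formS
  rw [nonneg_renP]
  constructor
  · intro h hs
    obtain ⟨z, hz⟩ := neg_of_sat hs (gapK (bsys S).length)
    exact absurd (h z) (not_le.2 hz)
  · intro h z
    by_contra hz
    exact h (sat_of_neg (not_le.1 hz))

/-- The instance of a system: the array and the bound. -/
noncomputable def inst (S : List Con) : List (List (List ℚ)) × ℚ :=
  (arr (formS S) (numS S), ((2 * (formS S).length + 3 : ℕ) : ℚ))

theorem inst_spec (S : List Con) :
    specNorm (inst S).1 (inst S).1.length ≤ ((inst S).2 : ℝ) ↔ ¬ Sat S := by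
  have h1 : (inst S).1.length = dimT (formS S) (numS S) := by simp [inst, arr]
  rw [h1, ← formS_nonneg, ← specNorm_arr (numS_pos S) (formS_ind S)]
  simp [inst]

end Pool.Agent.NH87.SN
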