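import Pool.Agent.NH87.SN.Forms

/-!
# From quartic forms to the spectral norm of 3-tensors
-/

namespace Pool.Agent.NH87.SN

/-- The coefficient `t_{ijk}` of an array. -/
def entry (T : List (List (List ℚ))) (i j k : ℕ) : ℚ := ((T.getD i []).getD j []).getD k 0

/-- The trilinear form `T(x, y, z) = ∑ t_{ijk} xᵢ yⱼ zₖ` of a `d × d × d` array. -/
def tri (T : List (List (List ℚ))) (d : ℕ) (x y z : Fin d → ℝ) : ℝ :=
  ∑ i : Fin d, ∑ j : Fin d, ∑ k : Fin d, (entry T i j k : ℝ) * x i * y j * z k

/-- The spectral norm: the maximum of `|T(x, y, z)|` over all unit vectors `x, y, z`. -/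
noncomputable def specNorm (T : List (List (List ℚ))) (d : ℕ) : ℝ :=
  sSup {r | ∃ x y z : Fin d → ℝ, ∑ i, x i ^ 2 = 1 ∧ ∑ i, y i ^ 2 = 1 ∧ ∑ i, z i ^ 2 = 1 ∧
    r = |tri T d x y z|}

/-- The bilinear form in the `k`-th slice. -/
def bil (T : List (List (List ℚ))) (d : ℕ) (x y : Fin d → ℝ) (k : Fin d) : ℝ :=
  ∑ i : Fin d, ∑ j : Fin d, (entry T i j k : ℝ) * x i * y j

theorem tri_eq (T : List (List (List ℚ))) (d : ℕ) (x y z : Fin d → ℝ) :
    tri T d x y z = ∑ k, bil T d x y k * z k := by
  unfold tri bil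
  have h : ∀ i : Fin d, ∑ j : Fin d, ∑ k : Fin d, (entry T i j k : ℝ) * x i * y j * z k =
      ∑ k : Fin d, ∑ j : Fin d, (entry T i j k : ℝ) * x i * y j * z k := fun i =>
    Finset.sum_comm
  rw [Finset.sum_congr rfl fun i _ => h i, Finset.sum_comm]
  refine Finset.sum_congr rfl fun k _ => ?_
  rw [Finset.sum_mul]
  refine Finset.sum_congr rfl fun i _ => ?_
  rw [Finset.sum_mul]

theorem tri_bdd (T : List (List (List ℚ))) (d : ℕ) (x y z : Fin d → ℝ) (hx : ∑ i, x i ^ 2 = 1)
    (hy : ∑ i, y i ^ 2 = 1) (hz : ∑ i, z i ^ 2 = 1) :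
    |tri T d x y z| ≤ ∑ i : Fin d, ∑ j : Fin d, ∑ k : Fin d, |(entry T i j k : ℝ)| := by
  have key : ∀ {w : Fin d → ℝ}, ∑ i, w i ^ 2 = 1 → ∀ i, |w i| ≤ 1 := by
    intro w hw i
    have h1 : w i ^ 2 ≤ 1 := by
      rw [← hw]
      exact Finset.single_le_sum (f := fun i => w i ^ 2) (fun _ _ => sq_nonneg _)
        (Finset.mem_univ i)
    exact abs_le_one_iff_mul_self_le_one.2 (by nlinarith)
  unfold tri
  refine (Finset.abs_sum_le_sum_abs _ _).trans (Finset.sum_le_sum fun i _ => ?_)
  refine (Finset.abs_sum_le_sum_abs _ _).trans (Finset.sum_le_sum fun j _ => ?_)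
  refine (Finset.abs_sum_le_sum_abs _ _).trans (Finset.sum_le_sum fun k _ => ?_)
  rw [abs_mul, abs_mul, abs_mul]
  have h1 := key hx i
  have h2 := key hy j
  have h3 := key hz k
  have h4 : |x i| * |y j| ≤ 1 := mul_le_one₀ h1 (abs_nonneg _) h2
  have h5 : |x i| * |y j| * |z k| ≤ 1 := mul_le_one₀ h4 (abs_nonneg _) h3
  calc |(entry T i j k : ℝ)| * |x i| * |y j| * |z k|
      = |(entry T i j k : ℝ)| * (|x i| * |y j| * |z k|) := by ring
    _ ≤ |(entry T i j k : ℝ)| * 1 := mul_le_mul_of_nonneg_left h5 (abs_nonneg _)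
    _ = _ := mul_one _

/-- `‖T‖ ≤ σ` means that `|T(x, y, z)| ≤ σ` for all unit vectors. -/
theorem specNorm_le_iff (T : List (List (List ℚ))) {d : ℕ} (hd : 0 < d) (σ : ℝ) :
    specNorm T d ≤ σ ↔ ∀ x y z : Fin d → ℝ, ∑ i, x i ^ 2 = 1 → ∑ i, y i ^ 2 = 1 →
      ∑ i, z i ^ 2 = 1 → |tri T d x y z| ≤ σ := by
  unfold specNorm
  rw [csSup_le_iff]
  · constructor
    · intro h x y z hx hy hz
      exact h _ ⟨x, y, z, hx, hy, hz, rfl⟩
    · rintro h r ⟨x, y, z, hx, hy, hz, rfl⟩
      exact h x y z hx hy hz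
  · refine ⟨∑ i : Fin d, ∑ j : Fin d, ∑ k : Fin d, |(entry T i j k : ℝ)|, ?_⟩
    rintro r ⟨x, y, z, hx, hy, hz, rfl⟩
    exact tri_bdd T d x y z hx hy hz
  · have h : ∑ i : Fin d, (Pi.single (⟨0, hd⟩ : Fin d) (1 : ℝ) : Fin d → ℝ) i ^ 2 = 1 := by
      rw [Finset.sum_eq_single (⟨0, hd⟩ : Fin d)]
      · simp
      · intro b _ hb
        rw [Pi.single_eq_of_ne hb]
        simp
      · simp
    exact ⟨_, _, _, _, h, h, h, rfl⟩

/-- Elimination of `z`. -/
theorem unit_iff (T : List (List (List ℚ))) (d : ℕ) {σ : ℝ} (hσ : 0 < σ) :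
    (∀ x y z : Fin d → ℝ, ∑ i, x i ^ 2 = 1 → ∑ i, y i ^ 2 = 1 → ∑ i, z i ^ 2 = 1 →
      |tri T d x y z| ≤ σ) ↔
    ∀ x y : Fin d → ℝ, ∑ k, bil T d x y k ^ 2 ≤ σ ^ 2 * ((∑ i, x i ^ 2) * ∑ i, y i ^ 2) := by
  constructor
  · intro h x y
    have hx0 : 0 ≤ ∑ i, x i ^ 2 := Finset.sum_nonneg fun _ _ => sq_nonneg _
    have hy0 : 0 ≤ ∑ i, y i ^ 2 := Finset.sum_nonneg fun _ _ => sq_nonneg _
    have hb0 : 0 ≤ ∑ k, bil T d x y k ^ 2 := Finset.sum_nonneg fun _ _ => sq_nonneg _
    rcases hx0.eq_or_lt with hx | hx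
    · have hz : ∀ i, x i = 0 := by
        intro i
        have := (Finset.sum_eq_zero_iff_of_nonneg (fun i _ => sq_nonneg (x i))).1 hx.symm i
          (Finset.mem_univ i)
        exact pow_eq_zero_iff two_ne_zero |>.1 this
      rw [← hx]
      simp [bil, hz]
    rcases hy0.eq_or_lt with hy | hy
    · have hz : ∀ i, y i = 0 := by
        intro i
        have := (Finset.sum_eq_zero_iff_of_nonneg (fun i _ => sq_nonneg (y i))).1 hy.symm i
          (Finset.mem_univ i)
        exact pow_eq_zero_iff two_ne_zero |>.1 this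
      rw [← hy]
      simp [bil, hz]
    rcases hb0.eq_or_lt with hb | hb
    · rw [← hb]; positivity
    set a := √(∑ i, x i ^ 2) with ha
    set b := √(∑ i, y i ^ 2) with hb'
    set c := √(∑ k, bil T d x y k ^ 2) with hc
    have ha2 : a ^ 2 = ∑ i, x i ^ 2 := Real.sq_sqrt hx.le
    have hb2 : b ^ 2 = ∑ i, y i ^ 2 := Real.sq_sqrt hy.le
    have hc2 : c ^ 2 = ∑ k, bil T d x y k ^ 2 := Real.sq_sqrt hb.le
    have ha0 : 0 < a := Real.sqrt_pos.2 hx
    have hb0 : 0 < b := Real.sqrt_pos.2 hy
    have hc0 : 0 < c := Real.sqrt_pos.2 hb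
    have e : ∀ (w : Fin d → ℝ) (r : ℝ), 0 < r → r ^ 2 = ∑ i, w i ^ 2 →
        ∑ i, (w i / r) ^ 2 = 1 := by
      intro w r hr h
      simp only [div_pow]
      rw [← Finset.sum_div, ← h, div_self (by positivity)]
    have h1 := h (fun i => x i / a) (fun i => y i / b) (fun k => bil T d x y k / c)
      (e x a ha0 ha2) (e y b hb0 hb2) (e _ c hc0 hc2)
    have h2 : tri T d (fun i => x i / a) (fun i => y i / b) (fun k => bil T d x y k / c) =
        c / (a * b) := by
      rw [tri_eq]
      have h3 : ∀ k, bil T d (fun i => x i / a) (fun i => y i / b) k =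
          bil T d x y k / (a * b) := by
        intro k
        unfold bil
        rw [Finset.sum_div]
        refine Finset.sum_congr rfl fun i _ => ?_
        rw [Finset.sum_div]
        refine Finset.sum_congr rfl fun j _ => ?_
        field_simp
      simp only [h3]
      have h4 : ∀ k, bil T d x y k / (a * b) * (bil T d x y k / c) =
          bil T d x y k ^ 2 / (a * b * c) := by
        intro k
        field_simp
      simp only [h4]
      rw [← Finset.sum_div, ← hc2]
      field_simp
    rw [h2, abs_of_pos (by positivity), div_le_iff₀ (by positivity)] at h1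
    rw [← hc2, ← ha2, ← hb2]
    calc c ^ 2 ≤ (σ * (a * b)) ^ 2 := pow_le_pow_left₀ hc0.le h1 2
      _ = _ := by ring
  · intro h x y z hx hy hz
    have h1 := h x y
    rw [hx, hy, mul_one, mul_one] at h1
    have h2 : tri T d x y z ^ 2 ≤ σ ^ 2 := by
      rw [tri_eq]
      refine (Finset.sum_mul_sq_le_sq_mul_sq _ _ _).trans ?_
      rw [hz, mul_one]
      exact h1
    exact abs_le_of_sq_le_sq h2 hσ.le

/-! ### The tensor of a quartic form -/

/-- A bilinear form with two terms `c x_a y_b + c' x_{a'} y_{b'}`. -/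
abbrev PF : Type := (ℤ × ℕ × ℕ) × (ℤ × ℕ × ℕ)

/-- The value of a bilinear form. -/
def pval (x y : ℕ → ℝ) (b : PF) : ℝ :=
  b.1.1 * (x b.1.2.1 * y b.1.2.2) + b.2.1 * (x b.2.2.1 * y b.2.2.2)

/-- The six products of the polar form. -/
def six (t : Quart) : List ((ℕ × ℕ) × (ℕ × ℕ)) :=
  [((t.2.1, t.2.2.2.1), (t.2.2.1, t.2.2.2.2)),
   ((t.2.1, t.2.2.1), (t.2.2.2.1, t.2.2.2.2)),
   ((t.2.1, t.2.2.1), (t.2.2.2.2, t.2.2.2.1)),
   ((t.2.2.1, t.2.1), (t.2.2.2.1, t.2.2.2.2)),
   ((t.2.2.1, t.2.1), (t.2.2.2.2, t.2.2.2.1)),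
   ((t.2.2.2.1, t.2.1), (t.2.2.2.2, t.2.2.1))]

/-- The forms of a monomial. -/
def forms2 (t : Quart) : List PF :=
  (six t).map fun m => ((1, m.1), ((if t.1 = true then -1 else 1), m.2))

/-- The products `xᵢ yⱼ` used by the forms. -/
def monos (P : List Quart) : List (ℕ × ℕ) := P.flatMap fun t => (six t).flatMap fun m => [m.1, m.2]

/-- The diagonal forms. -/
def forms3 (P : List Quart) (N : ℕ) : List PF :=
  (List.range N).flatMap fun i => (List.range N).flatMap fun j =>
    List.replicate (12 * P.length + 9 - (monos P).count (i, j)) ((1, i, j), (0, 0, 0))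

/-- All forms with at most two terms. -/
def pforms (P : List Quart) (N : ℕ) : List PF := P.flatMap forms2 ++ forms3 P N

/-- The value of a product. -/
def mval (x y : ℕ → ℝ) (m : ℕ × ℕ) : ℝ := x m.1 * y m.2

theorem sum_forms2 (x y : ℕ → ℝ) (P : List Quart) :
    ((P.flatMap forms2).map fun b => pval x y b ^ 2).sum =
      ((monos P).map fun m => mval x y m ^ 2).sum - 2 * gval P x y := by
  induction P with
  | nil => simp [monos, gval]
  | cons t P ih =>
    have h1 : monos (t :: P) = ((six t).flatMap fun m => [m.1, m.2]) ++ monos P := rfl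
    have h2 : gval (t :: P) x y = gt x y t + gval P x y := by simp [gval]
    rw [List.flatMap_cons, List.map_append, List.sum_append, ih, h1, List.map_append,
      List.sum_append, h2]
    have h3 : ((forms2 t).map fun b => pval x y b ^ 2).sum =
        (((six t).flatMap fun m => [m.1, m.2]).map fun m => mval x y m ^ 2).sum -
          2 * gt x y t := by
      simp only [forms2, six, List.map_cons, List.map_nil, List.sum_cons, List.sum_nil, pval,
        mval, gt, sg, List.flatMap_cons, List.flatMap_nil, List.cons_append, List.nil_append]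
      rcases t with ⟨_ | _, i, j, k, l⟩
      · simp only [Bool.false_eq_true, if_false]
        push_cast
        ring
      · simp only [if_true]
        push_cast
        ring
    rw [h3]
    ring

theorem sum_count (N : ℕ) (f : ℕ × ℕ → ℝ) (l : List (ℕ × ℕ))
    (hl : ∀ m ∈ l, m.1 < N ∧ m.2 < N) :
    ∑ i ∈ Finset.range N, ∑ j ∈ Finset.range N, (l.count (i, j) : ℝ) * f (i, j) =
      (l.map f).sum := by
  induction l with
  | nil => simp
  | cons m l ih =>
    have h1 := ih fun m' hm' => hl m' (List.mem_cons_of_mem _ hm')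
    obtain ⟨h2, h3⟩ := hl m List.mem_cons_self
    rw [List.map_cons, List.sum_cons, ← h1]
    have h4 : ∀ i j, (((m :: l).count (i, j) : ℕ) : ℝ) * f (i, j) =
        (if m = (i, j) then f m else 0) + (l.count (i, j) : ℝ) * f (i, j) := by
      intro i j
      rw [List.count_cons]
      by_cases h : m = (i, j)
      · subst h; simp; ring
      · simp [h]
    simp only [h4, Finset.sum_add_distrib]
    congr 1
    rw [Finset.sum_eq_single m.1, Finset.sum_eq_single m.2]
    · simp
    · intro j _ hj
      rw [if_neg]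
      intro h
      apply hj
      rw [h]
    · intro h
      exact absurd (Finset.mem_range.2 h3) h
    · intro i _ hi
      apply Finset.sum_eq_zero
      intro j _
      rw [if_neg]
      intro h
      apply hi
      rw [h]
    · intro h
      exact absurd (Finset.mem_range.2 h2) h

theorem length_monos (P : List Quart) : (monos P).length = 12 * P.length := by
  unfold monos
  induction P with
  | nil => rfl
  | cons t P ih =>
    rw [List.flatMap_cons, List.length_append, ih]
    simp [six]
    ring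

theorem sum_range_flatMap {β : Type} (N : ℕ) (F : ℕ → List β) (f : β → ℝ) :
    (((List.range N).flatMap F).map f).sum = ∑ i ∈ Finset.range N, ((F i).map f).sum := by
  induction N with
  | zero => simp
  | succ N ih =>
    rw [List.range_succ, List.flatMap_append, List.map_append, List.sum_append, ih,
      Finset.sum_range_succ]
    simp

theorem sum_forms3 (x y : ℕ → ℝ) (P : List Quart) (N : ℕ)
    (hP : ∀ m ∈ monos P, m.1 < N ∧ m.2 < N) :
    ((forms3 P N).map fun b => pval x y b ^ 2).sum =
      (12 * P.length + 9) * (nsq N x * nsq N y) - ((monos P).map fun m => mval x y m ^ 2).sum := by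
  unfold forms3
  rw [sum_range_flatMap]
  have h1 : ∀ i, ((((List.range N).flatMap fun j => List.replicate
      (12 * P.length + 9 - (monos P).count (i, j)) (((1, i, j), (0, 0, 0)) : PF))).map
        fun b => pval x y b ^ 2).sum = ∑ j ∈ Finset.range N,
        ((12 * P.length + 9) * (x i ^ 2 * y j ^ 2) -
          ((monos P).count (i, j) : ℝ) * mval x y (i, j) ^ 2) := by
    intro i
    rw [sum_range_flatMap]
    refine Finset.sum_congr rfl fun j _ => ?_
    rw [List.map_replicate, List.sum_replicate, nsmul_eq_mul]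
    have h2 : (monos P).count (i, j) ≤ 12 * P.length + 9 :=
      List.count_le_length.trans (by rw [length_monos]; omega)
    rw [Nat.cast_sub h2]
    unfold pval mval
    push_cast
    ring
  rw [Finset.sum_congr rfl fun i _ => h1 i]
  simp only [Finset.sum_sub_distrib]
  rw [sum_count N (fun m => mval x y m ^ 2) (monos P) hP]
  congr 1
  unfold nsq
  rw [Finset.sum_mul_sum, Finset.mul_sum]
  refine Finset.sum_congr rfl fun i _ => ?_
  rw [Finset.mul_sum]

theorem monos_lt {P : List Quart} {N : ℕ} (hP : ∀ t ∈ P, Ind N t) :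
    ∀ m ∈ monos P, m.1 < N ∧ m.2 < N := by
  intro m hm
  unfold monos at hm
  rw [List.mem_flatMap] at hm
  obtain ⟨t, ht, hm⟩ := hm
  obtain ⟨h1, h2, h3, h4⟩ := hP t ht
  simp only [six, List.flatMap_cons, List.flatMap_nil, List.cons_append, List.nil_append,
    List.mem_cons, List.not_mem_nil, or_false] at hm
  rcases hm with rfl | rfl | rfl | rfl | rfl | rfl | rfl | rfl | rfl | rfl | rfl | rfl <;>
    exact ⟨by assumption, by assumption⟩

/-- The coefficient of `xᵢ yⱼ` in a form with two terms. -/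
def coefP (b : PF) (i j : ℕ) : ℤ :=
  (if b.1.2 = (i, j) then b.1.1 else 0) + (if b.2.2 = (i, j) then b.2.1 else 0)

/-- The coefficients of the tensor. -/
def tens (P : List Quart) (N i j k : ℕ) : ℤ :=
  if k = 0 then (if i = j ∧ i < N then ((2 * P.length : ℕ) : ℤ) else 0)
  else coefP ((pforms P N).getD (k - 1) ((0, 0, 0), (0, 0, 0))) i j

/-- The dimension. -/
def dimT (P : List Quart) (N : ℕ) : ℕ := N + 1 + (pforms P N).length

/-- The array. -/
def arr (P : List Quart) (N : ℕ) : List (List (List ℚ)) :=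
  (List.range (dimT P N)).map fun i => (List.range (dimT P N)).map fun j =>
    (List.range (dimT P N)).map fun k => ((tens P N i j k : ℤ) : ℚ)

theorem entry_arr {P : List Quart} {N i j k : ℕ} (hi : i < dimT P N) (hj : j < dimT P N)
    (hk : k < dimT P N) : entry (arr P N) i j k = tens P N i j k := by
  unfold entry arr
  simp [List.getD_eq_getElem?_getD, hi, hj, hk]

theorem sum_fin_range {d : ℕ} (f : ℕ → ℝ) : ∑ i : Fin d, f i = ∑ i ∈ Finset.range d, f i :=
  Fin.sum_univ_eq_sum_range f d

theorem sum_coefP (b : PF) (d : ℕ) (x y : ℕ → ℝ) (h1 : b.1.2.1 < d) (h2 : b.1.2.2 < d)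
    (h3 : b.2.2.1 < d) (h4 : b.2.2.2 < d) :
    ∑ i ∈ Finset.range d, ∑ j ∈ Finset.range d, (coefP b i j : ℝ) * x i * y j = pval x y b := by
  have key : ∀ (c : ℤ) (m : ℕ × ℕ), m.1 < d → m.2 < d →
      ∑ i ∈ Finset.range d, ∑ j ∈ Finset.range d,
        ((if m = (i, j) then c else 0 : ℤ) : ℝ) * x i * y j = c * (x m.1 * y m.2) := by
    intro c m hm1 hm2
    rw [Finset.sum_eq_single m.1, Finset.sum_eq_single m.2]
    · simp
      ring
    · intro j _ hj
      rw [if_neg]
      · simp
      intro h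
      apply hj
      rw [h]
    · intro h
      exact absurd (Finset.mem_range.2 hm2) h
    · intro i _ hi
      apply Finset.sum_eq_zero
      intro j _
      rw [if_neg]
      · simp
      intro h
      apply hi
      rw [h]
    · intro h
      exact absurd (Finset.mem_range.2 hm1) h
  unfold pval
  rw [← key b.1.1 b.1.2 h1 h2, ← key b.2.1 b.2.2 h3 h4, ← Finset.sum_add_distrib]
  refine Finset.sum_congr rfl fun i _ => ?_
  rw [← Finset.sum_add_distrib]
  refine Finset.sum_congr rfl fun j _ => ?_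
  unfold coefP
  push_cast
  ring

theorem pforms_lt {P : List Quart} {N : ℕ} (hN : 0 < N) (hP : ∀ t ∈ P, Ind N t) :
    ∀ b ∈ pforms P N, b.1.2.1 < N ∧ b.1.2.2 < N ∧ b.2.2.1 < N ∧ b.2.2.2 < N := by
  intro b hb
  unfold pforms at hb
  rw [List.mem_append, List.mem_flatMap] at hb
  rcases hb with ⟨t, ht, hb⟩ | hb
  · obtain ⟨h1, h2, h3, h4⟩ := hP t ht
    simp only [forms2, six, List.map_cons, List.map_nil, List.mem_cons, List.not_mem_nil,
      or_false] at hb
    rcases hb with rfl | rfl | rfl | rfl | rfl | rfl <;>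
      exact ⟨by assumption, by assumption, by assumption, by assumption⟩
  · unfold forms3 at hb
    rw [List.mem_flatMap] at hb
    obtain ⟨i, hi, hb⟩ := hb
    rw [List.mem_flatMap] at hb
    obtain ⟨j, hj, hb⟩ := hb
    rw [List.mem_replicate] at hb
    obtain ⟨-, rfl⟩ := hb
    exact ⟨List.mem_range.1 hi, List.mem_range.1 hj, hN, hN⟩

theorem sum_bil {P : List Quart} {N : ℕ} (hN : 0 < N) (hP : ∀ t ∈ P, Ind N t) (x y : ℕ → ℝ) :
    ∑ k, bil (arr P N) (dimT P N) (fun i => x i) (fun i => y i) k ^ 2 =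
      (2 * P.length : ℝ) ^ 2 * dot N x y ^ 2 + (12 * P.length + 9) * (nsq N x * nsq N y) -
        2 * gval P x y := by
  have hbil : ∀ k : Fin (dimT P N), bil (arr P N) (dimT P N) (fun i => x i) (fun i => y i) k =
      ∑ i ∈ Finset.range (dimT P N), ∑ j ∈ Finset.range (dimT P N),
        (tens P N i j k : ℝ) * x i * y j := by
    intro k
    unfold bil
    rw [← sum_fin_range (fun i => ∑ j ∈ Finset.range (dimT P N),
        (tens P N i j k : ℝ) * x i * y j)]
    refine Finset.sum_congr rfl fun i _ => ?_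
    rw [← sum_fin_range (fun j => (tens P N i j k : ℝ) * x i * y j)]
    refine Finset.sum_congr rfl fun j _ => ?_
    rw [entry_arr i.2 j.2 k.2]
    push_cast
    rfl
  simp only [hbil]
  rw [sum_fin_range (fun k => (∑ i ∈ Finset.range (dimT P N), ∑ j ∈ Finset.range (dimT P N),
        (tens P N i j k : ℝ) * x i * y j) ^ 2)]
  have hd : dimT P N = (N + (pforms P N).length) + 1 := by unfold dimT; ring
  have h0 : ∑ i ∈ Finset.range (dimT P N), ∑ j ∈ Finset.range (dimT P N),
      (tens P N i j 0 : ℝ) * x i * y j = (2 * P.length) * dot N x y := by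
    unfold dot
    rw [Finset.mul_sum]
    have h1 : ∀ i ∈ Finset.range (dimT P N), ∑ j ∈ Finset.range (dimT P N),
        (tens P N i j 0 : ℝ) * x i * y j = if i < N then (2 * P.length : ℝ) * (x i * y i)
          else 0 := by
      intro i hi
      rw [Finset.sum_eq_single i]
      · unfold tens
        by_cases h : i < N
        · simp [h]; ring
        · simp [h]
      · intro j _ hj
        unfold tens
        rw [if_pos rfl, if_neg (fun h => hj h.1.symm)]
        simp
      · intro h; exact absurd hi h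
    rw [Finset.sum_congr rfl h1, ← Finset.sum_filter]
    apply Finset.sum_congr _ fun i _ => rfl
    ext i
    simp only [Finset.mem_filter, Finset.mem_range]
    unfold dimT
    omega
  have hs : ∀ k, ∑ i ∈ Finset.range (dimT P N), ∑ j ∈ Finset.range (dimT P N),
      (tens P N i j (k + 1) : ℝ) * x i * y j =
        pval x y ((pforms P N).getD k ((0, 0, 0), (0, 0, 0))) := by
    intro k
    have hb : ((pforms P N).getD k ((0, 0, 0), (0, 0, 0))).1.2.1 < N ∧
        ((pforms P N).getD k ((0, 0, 0), (0, 0, 0))).1.2.2 < N ∧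
        ((pforms P N).getD k ((0, 0, 0), (0, 0, 0))).2.2.1 < N ∧
        ((pforms P N).getD k ((0, 0, 0), (0, 0, 0))).2.2.2 < N := by
      by_cases hk : k < (pforms P N).length
      · rw [List.getD_eq_getElem _ _ hk]
        exact pforms_lt hN hP _ (List.getElem_mem hk)
      · rw [List.getD_eq_default _ _ (by omega)]
        exact ⟨hN, hN, hN, hN⟩
    have hNd : N ≤ dimT P N := by unfold dimT; omega
    rw [← sum_coefP _ (dimT P N) x y (hb.1.trans_le hNd) (hb.2.1.trans_le hNd)
      (hb.2.2.1.trans_le hNd) (hb.2.2.2.trans_le hNd)]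
    refine Finset.sum_congr rfl fun i _ => Finset.sum_congr rfl fun j _ => ?_
    unfold tens
    rw [if_neg (by omega), Nat.add_sub_cancel]
  rw [hd, Finset.sum_range_succ']
  rw [← hd]
  simp only [hs, h0]
  have hlist : ∀ (L : List PF) (M : ℕ), L.length ≤ M →
      ∑ k ∈ Finset.range M, pval x y (L.getD k ((0, 0, 0), (0, 0, 0))) ^ 2 =
        (L.map fun b => pval x y b ^ 2).sum := by
    intro L
    induction L with
    | nil =>
      intro M _
      simp [pval]
    | cons b L ih =>
      intro M hM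
      obtain ⟨M, rfl⟩ : ∃ M', M = M' + 1 := ⟨M - 1, by simp at hM; omega⟩
      rw [Finset.sum_range_succ']
      simp only [List.getD_cons_succ, List.getD_cons_zero, List.map_cons, List.sum_cons]
      rw [ih M (by simpa using hM)]
      ring
  rw [hlist _ _ (by omega)]
  unfold pforms
  rw [List.map_append, List.sum_append, sum_forms2, sum_forms3 x y P N (monos_lt hP)]
  ring

theorem nsq_fin (d : ℕ) (x : ℕ → ℝ) : ∑ i : Fin d, x i ^ 2 = nsq d x :=
  sum_fin_range (fun i => x i ^ 2)

theorem gval_congr {N : ℕ} {P : List Quart} (hP : ∀ t ∈ P, Ind N t) {x x' y y' : ℕ → ℝ}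
    (hx : ∀ i < N, x i = x' i) (hy : ∀ i < N, y i = y' i) : gval P x y = gval P x' y' := by
  unfold gval
  congr 1
  apply List.map_congr_left
  intro t ht
  obtain ⟨h1, h2, h3, h4⟩ := hP t ht
  unfold gt
  rw [hx _ h1, hx _ h2, hx _ h3, hx _ h4, hy _ h1, hy _ h2, hy _ h3, hy _ h4]

/-- **The spectral norm of the tensor of a quartic form.** -/
theorem specNorm_arr {P : List Quart} {N : ℕ} (hN : 0 < N) (hP : ∀ t ∈ P, Ind N t) :
    specNorm (arr P N) (dimT P N) ≤ ((2 * P.length + 3 : ℕ) : ℝ) ↔ ∀ z, 0 ≤ fval P z := by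
  have hd : 0 < dimT P N := by unfold dimT; omega
  rw [specNorm_le_iff _ hd, unit_iff _ _ (by positivity), key hP]
  push_cast
  constructor
  · intro h x y
    set x' : ℕ → ℝ := fun i => if i < N then x i else 0 with hx'
    set y' : ℕ → ℝ := fun i => if i < N then y i else 0 with hy'
    have h1 := h (fun i => x' i) (fun i => y' i)
    rw [sum_bil hN hP, nsq_fin, nsq_fin] at h1
    have hn : ∀ w : ℕ → ℝ, nsq (dimT P N) (fun i => if i < N then w i else 0) = nsq N w := by
      intro w
      unfold nsq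
      have e : ∀ i, (if i < N then w i else 0) ^ 2 = if i < N then w i ^ 2 else 0 := by
        intro i; split_ifs <;> simp
      simp only [e]
      rw [← Finset.sum_filter]
      apply Finset.sum_congr _ fun i _ => rfl
      ext i
      simp only [Finset.mem_filter, Finset.mem_range]
      unfold dimT
      omega
    have hn' : ∀ w : ℕ → ℝ, nsq N (fun i => if i < N then w i else 0) = nsq N w := by
      intro w
      unfold nsq
      refine Finset.sum_congr rfl fun i hi => ?_
      simp only [if_pos (Finset.mem_range.1 hi)]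
    have hdd : dot N x' y' = dot N x y := by
      unfold dot
      refine Finset.sum_congr rfl fun i hi => ?_
      rw [hx', hy']
      simp only [if_pos (Finset.mem_range.1 hi)]
    rw [hn x, hn y, hn' x, hn' y, hdd] at h1
    have hg : gval P x' y' = gval P x y := gval_congr hP
      (fun i hi => by simp [hx', hi]) (fun i hi => by simp [hy', hi])
    rw [hg] at h1
    nlinarith
  · intro h x y
    set x' : ℕ → ℝ := fun i => if h : i < dimT P N then x ⟨i, h⟩ else 0 with hx'
    set y' : ℕ → ℝ := fun i => if h : i < dimT P N then y ⟨i, h⟩ else 0 with hy'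
    have ex : x = fun i : Fin (dimT P N) => x' i := by
      funext i; simp [hx']
    have ey : y = fun i : Fin (dimT P N) => y' i := by
      funext i; simp [hy']
    rw [ex, ey, sum_bil hN hP, nsq_fin, nsq_fin]
    have h1 := h x' y'
    have hle : ∀ w : ℕ → ℝ, nsq N w ≤ nsq (dimT P N) w := by
      intro w
      unfold nsq
      apply Finset.sum_le_sum_of_subset_of_nonneg
      · intro i
        simp only [Finset.mem_range]
        unfold dimT
        omega
      · intro i _ _
        exact sq_nonneg _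
    have h2 : nsq N x' * nsq N y' ≤ nsq (dimT P N) x' * nsq (dimT P N) y' :=
      mul_le_mul (hle _) (hle _) (nsq_nonneg _ _) (nsq_nonneg _ _)
    have h3 : (0 : ℝ) ≤ (2 * P.length + 3) ^ 2 := sq_nonneg _
    nlinarith

end Pool.Agent.NH87.SN
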